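import Pool.Agent.Helper70.KN.Goals3

/-!
Packet KN-NB: numbers.
-/

namespace Pool.Agent.Helper87.KN.NB

open Pool.Agent.Helper70.KN

/-- Bernoulli: `(1 - x)^n ≤ 1 / (1 + n x)` -/
lemma bern (n : ℕ) (x : ℝ) (hx1 : x ≤ 1) : (1 - x) ^ n * (1 + n * x) ≤ 1 := by
  induction n with
  | zero => simp
  | succ n ih =>
    have h1 : (0 : ℝ) ≤ (1 - x) ^ n := pow_nonneg (by linarith) n
    have h2 : (1 - x) ^ (n + 1) * (1 + ((n + 1 : ℕ) : ℝ) * x) =
        (1 - x) ^ n * (1 + n * x) - (1 - x) ^ n * (x ^ 2 * (n + 1)) := by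
      push_cast
      ring
    rw [h2]
    have h3 : 0 ≤ (1 - x) ^ n * (x ^ 2 * ((n : ℝ) + 1)) := by positivity
    linarith

lemma pbound (N : ℕ) (hN : 6 ≤ N) : ((7 : ℝ) / 12) ^ N * (N - 1) < 4 / 9 := by
  induction N, hN using Nat.le_induction with
  | base => norm_num
  | succ n hn ih =>
    have hn' : (6 : ℝ) ≤ n := by exact_mod_cast hn
    have h1 : (0 : ℝ) < (7 / 12) ^ n := by positivity
    push_cast
    have h2 : ((7 : ℝ) / 12) ^ (n + 1) * ((n : ℝ) + 1 - 1) =
        (7 / 12) ^ n * (7 / 12 * n) := by ring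
    rw [h2]
    have h3 : (7 : ℝ) / 12 * n ≤ n - 1 := by linarith
    have h4 := mul_le_mul_of_nonneg_left h3 h1.le
    linarith

theorem t : S_NB := by
  intro N hN
  rcases Nat.lt_or_ge N 6 with hN6 | hN6
  · interval_cases N
    · refine ⟨1 / 2, by norm_num, by norm_num, by norm_num, ?_⟩
      norm_num [kap]
    · refine ⟨11 / 45, by norm_num, by norm_num, by norm_num, ?_⟩
      norm_num [kap]
  · have hx : (6 : ℝ) ≤ N := by exact_mod_cast hN6
    have hpb := pbound N hN6
    have hN0 : (0 : ℝ) < N := by linarith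
    have hN1 : (0 : ℝ) < (N : ℝ) - 1 := by linarith
    have hN2 : (0 : ℝ) < (N : ℝ) - 2 := by linarith
    have hden : (0 : ℝ) < 3 * N * (N - 1) * (N - 2) := by positivity
    have hb := bern N (1 / (2 * N)) (by
      rw [div_le_one (by positivity)]
      linarith)
    have hq1 : (N : ℝ) * (1 / (2 * N)) = 1 / 2 := by
      field_simp
    rw [hq1] at hb
    set q : ℝ := (1 - 1 / (2 * N)) ^ N with hq
    have hp1 : (1 : ℝ) - (N - 1) / N * (1 / 2) = (N + 1) / (2 * N) := by
      field_simp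
      ring
    have hp2 : ((N : ℝ) + 1) / (2 * N) ≤ 7 / 12 := by
      rw [div_le_div_iff₀ (by positivity) (by norm_num)]
      linarith
    have hp3 : (0 : ℝ) ≤ ((N : ℝ) + 1) / (2 * N) := by positivity
    have hp4 : (((N : ℝ) + 1) / (2 * N)) ^ N ≤ (7 / 12) ^ N := pow_le_pow_left₀ hp3 hp2 N
    have hp5 : (0 : ℝ) ≤ (((N : ℝ) + 1) / (2 * N)) ^ N := pow_nonneg hp3 N
    set p : ℝ := (((N : ℝ) + 1) / (2 * N)) ^ N with hp
    set r : ℝ := 4 * (2 * N + 1) / (3 * N * (N - 1) * (N - 2)) with hr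
    have hr0 : 0 ≤ r := by positivity
    refine ⟨r, hr0, ?_, ?_, ?_⟩
    · rw [hr, div_le_one hden]
      have h6 : (18 : ℝ) ≤ 3 * ((N - 1) * (N - 2)) := by nlinarith
      nlinarith
    · apply le_of_eq
      rw [hr]
      field_simp
      ring
    · have hk1 : kap N (1 / N) (1 / 2) = N * (1 - q) := by
        unfold kap
        rw [hq, show (1 : ℝ) / N * (1 / 2) = 1 / (2 * N) by field_simp]
        field_simp
      have hk2 : kap N (((N : ℝ) - 1) / N) (1 / 2) = N / (N - 1) * (1 - p) := by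
        unfold kap
        rw [hp1, ← hp]
        field_simp
      rw [hk1, hk2]
      have he : ((N : ℝ) - 1) / N * (r * (N * (1 - q)) + (1 - r) * (N / (N - 1) * (1 - p))) =
          1 + (r * ((N - 1) * (1 - q) - (1 - p)) - p) := by
        field_simp
        ring
      rw [he]
      have hq2 : q ≤ 2 / 3 := by linarith
      have h1 : ((N : ℝ) - 4) / 3 ≤ (N - 1) * (1 - q) - (1 - p) := by nlinarith
      have h2 := mul_le_mul_of_nonneg_left h1 hr0
      have h3 : (4 / 9 : ℝ) / (N - 1) ≤ r * ((N - 4) / 3) := by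
        rw [hr, div_mul_div_comm, div_le_div_iff₀ hN1 (by positivity)]
        have h4 : (N : ℝ) * (N - 2) ≤ (2 * N + 1) * (N - 4) := by nlinarith
        have h5 : (4 / 9 : ℝ) * (3 * N * (N - 1) * (N - 2) * 3) = 4 * (N - 1) * (N * (N - 2)) := by
          ring
        have h6 : 4 * (2 * (N : ℝ) + 1) * (N - 4) * (N - 1) =
            4 * (N - 1) * ((2 * N + 1) * (N - 4)) := by ring
        rw [h5, h6]
        exact mul_le_mul_of_nonneg_left h4 (by positivity)
      have h4 : p < 4 / 9 / (N - 1) := by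
        rw [lt_div_iff₀ hN1]
        have := mul_le_mul_of_nonneg_right hp4 hN1.le
        linarith
      linarith

end Pool.Agent.Helper87.KN.NB
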