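import Pool.Agent.Helper87.KN.B

/-!
The certificate: for `4 ≤ n ≤ M` there is `u ≥ 0` with
`k * u (k-1) - (M-k) * u k ≤ B n M k` for `0 ≤ k ≤ M`.
-/

namespace Pool.Agent.Helper87.KN

/-- the ratio `c (M+1) n / binom(M,n)` -/
def rho (n M : ℕ) : ℚ := c (M + 1) n / (M.choose n : ℚ)

def F (n M k : ℕ) : ℚ := (rho n M * (k.choose n : ℚ) - c (k + 1) n) / ((M : ℚ) - k)

def B (n M k : ℕ) : ℚ :=
  (k : ℚ) * F n M (k - 1) + ((M : ℚ) - k) * F n M k + ((k : ℚ) / M) * h n (k - 1)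
    - rho n M * ((k - 1).choose (n - 1) : ℚ)

lemma R_zero (n : ℕ) : R n 0 = a n 1 := by
  have h0 : (n + 0).choose n = 1 := Nat.choose_self n
  unfold R
  rw [h0]; simp

lemma rho_add (n m : ℕ) : rho n (n + m) = R n m := by
  unfold rho R
  rw [show n + m + 1 = n + (m + 1) by ring, c_add]

lemma rho_nonneg (n M : ℕ) : 0 ≤ rho n M := by
  unfold rho
  exact div_nonneg (c_nonneg _ _) (by positivity)

lemma numer_zero {n k : ℕ} (M : ℕ) (hk : k < n) :
    rho n M * (k.choose n : ℚ) - c (k + 1) n = 0 := by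
  rw [Nat.choose_eq_zero_of_lt hk]
  have : c (k + 1) n = 0 := by
    by_cases hh : n = k + 1
    · rw [hh]; exact c_self _ (by omega)
    · exact c_of_lt (by omega)
  rw [this]; simp

lemma numer_nonneg {n M k : ℕ} (hkM : k ≤ M) :
    0 ≤ rho n M * (k.choose n : ℚ) - c (k + 1) n := by
  rcases Nat.lt_or_ge k n with hk | hk
  · rw [numer_zero M hk]
  · obtain ⟨i, rfl⟩ : ∃ i, k = n + i := ⟨k - n, by omega⟩
    obtain ⟨m, rfl⟩ : ∃ m, M = n + m := ⟨M - n, by omega⟩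
    rw [rho_add]
    have h1 := R_mono' n (show i ≤ m by omega)
    have h2 := choose_pos' n i
    have h3 : c (n + i + 1) n = R n i * ((n + i).choose n : ℚ) := by
      rw [show n + i + 1 = n + (i + 1) by ring, c_add]
      unfold R
      rw [div_mul_cancel₀ _ h2.ne']
    rw [h3]
    have := mul_le_mul_of_nonneg_right h1 h2.le
    linarith

lemma F_nonneg {n M k : ℕ} (hkM : k ≤ M) : 0 ≤ F n M k := by
  unfold F
  apply div_nonneg (numer_nonneg hkM)
  have : (k : ℚ) ≤ (M : ℚ) := by exact_mod_cast hkM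
  linarith

lemma F_zero {n M k : ℕ} (hk : k < n) : F n M k = 0 := by
  unfold F
  rw [numer_zero M hk]; simp

/-- `(M-k) F = ρ_M binom(k,n) - c(k+1,n)` -/
lemma mul_F {n M k : ℕ} (hkM : k ≤ M) (hnM : n ≤ M) :
    ((M : ℚ) - k) * F n M k = rho n M * (k.choose n : ℚ) - c (k + 1) n := by
  unfold F
  rcases Nat.lt_or_ge k M with h | h
  · have : (k : ℚ) < (M : ℚ) := by exact_mod_cast h
    have h2 : (M : ℚ) - k ≠ 0 := by linarith
    rw [mul_div_cancel₀ _ h2]
  · obtain rfl : k = M := by omega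
    rw [sub_self, zero_mul]
    unfold rho
    have h2 : (0 : ℚ) < (k.choose n : ℚ) := by exact_mod_cast Nat.choose_pos hnM
    rw [div_mul_cancel₀ _ h2.ne']
    ring

lemma B_small {n M k : ℕ} (hn : 3 ≤ n) (hk : k < n) : B n M k = 0 := by
  unfold B
  rw [F_zero (by omega : k - 1 < n), F_zero hk]
  rw [Nat.choose_eq_zero_of_lt (by omega : k - 1 < n - 1)]
  rcases Nat.eq_zero_or_pos k with h0 | h0
  · subst h0; simp
  · rw [h_zero n (k - 1) (by omega) (by omega)]; simp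

/-- `k = n`. -/
lemma B_diag {n m : ℕ} (hn : 4 ≤ n) : B n (n + m) n = - ((m : ℚ) * (R n 0 / ((n + m : ℕ) : ℚ))) := by
  unfold B
  rw [F_zero (by omega : n - 1 < n), mul_F (by omega) (by omega), rho_add]
  have h1 : c (n + 1) n = R n 0 := by
    rw [R_zero, c_add]
  have h2 : h n (n - 1) = R n 0 := by
    unfold h
    rw [if_pos (by omega)]
    have e1 : n - 1 + 2 = n + 1 := by omega
    have e2 : n - 1 + 1 = n := by omega
    have e3 : n - 1 - 1 = n - 2 := by omega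
    rw [e1, e2, e3, c_self n (by omega), c_self (n - 1) (by omega), c_self (n - 2) (by omega), h1]
    ring
  rw [h1, h2, Nat.choose_self, Nat.choose_self]
  have h3 : ((n + m : ℕ) : ℚ) ≠ 0 := by
    have : n + m ≠ 0 := by omega
    exact_mod_cast this
  have h4 : ((n : ℚ) + m) ≠ 0 := by push_cast at h3; exact h3
  push_cast
  field_simp
  ring

/-- `k = n+1+i ≤ M = n+(i+t+1)`. -/
lemma B_big {n : ℕ} (hn : 1 ≤ n) (i t : ℕ) :
    B n (n + (i + t + 1)) (n + 1 + i) = ((n + i).choose n : ℚ) * e n (i + t + 1) i / ((t : ℚ) + 1)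
      + (((n + 1 + i : ℕ) : ℚ) / ((n + (i + t + 1) : ℕ) : ℚ)) * h n (n + i) := by
  unfold B
  have e1 : n + 1 + i - 1 = n + i := by omega
  rw [e1, mul_F (by omega) (by omega)]
  unfold F
  rw [rho_add]
  have hc := choose_pos' n i
  have h1 : c (n + i + 1) n = R n i * ((n + i).choose n : ℚ) := by
    rw [show n + i + 1 = n + (i + 1) by ring, c_add]
    unfold R
    rw [div_mul_cancel₀ _ hc.ne']
  have h2 : c (n + 1 + i + 1) n = Kp n i * ((n + i).choose n : ℚ) := by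
    rw [show n + 1 + i + 1 = n + (i + 2) by ring, c_add]
    unfold Kp
    rw [div_mul_cancel₀ _ hc.ne']
  have h3 : ((n + 1 + i).choose n : ℚ) = ((n + i).choose n : ℚ) + ((n + i).choose (n - 1) : ℚ) := by
    obtain ⟨n', rfl⟩ : ∃ n', n = n' + 1 := ⟨n - 1, by omega⟩
    rw [show n' + 1 + 1 + i = (n' + 1 + i) + 1 by ring, Nat.choose_succ_succ,
      show n' + 1 - 1 = n' by omega]
    push_cast; ring
  rw [h1, h2, h3]
  unfold e
  have h4 : ((t : ℚ) + 1) ≠ 0 := by positivity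
  have h5 : (((n + (i + t + 1) : ℕ) : ℚ) - ((n + i : ℕ) : ℚ)) = (t : ℚ) + 1 := by push_cast; ring
  rw [h5]
  set X := (((n + 1 + i : ℕ) : ℚ) / ((n + (i + t + 1) : ℕ) : ℚ)) * h n (n + i) with hX
  push_cast
  field_simp
  ring

/-- certificate for `n ≥ 5` -/
lemma cert_five (n M : ℕ) (hM : n + 5 ≤ M) : ∃ u : ℕ → ℚ, (∀ k, 0 ≤ u k) ∧
    ∀ k ≤ M, (k : ℚ) * u (k - 1) - ((M : ℚ) - k) * u k ≤ B (n + 5) M k := by
  have hM0 : (0 : ℚ) < (M : ℚ) := by
    have : 0 < M := by omega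
    exact_mod_cast this
  refine ⟨fun k => if k = n + 5 then R (n + 5) 0 / (M : ℚ) else 0, ?_, ?_⟩
  · intro k
    simp only
    split_ifs
    · exact div_nonneg (R_pos _ _).le hM0.le
    · exact le_refl _
  · intro k hk
    simp only
    rcases Nat.lt_trichotomy k (n + 5) with hk1 | hk1 | hk1
    · rw [if_neg (by omega), if_neg (by omega), B_small (by omega) hk1]
      simp
    · subst hk1
      rw [if_neg (by omega), if_pos rfl]
      obtain ⟨m, rfl⟩ : ∃ m, M = n + 5 + m := ⟨M - (n + 5), by omega⟩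
      rw [B_diag (by omega)]
      apply le_of_eq
      push_cast
      ring
    · obtain ⟨i, rfl⟩ : ∃ i, k = n + 5 + 1 + i := ⟨k - (n + 5 + 1), by omega⟩
      obtain ⟨t, rfl⟩ : ∃ t, M = n + 5 + (i + t + 1) := ⟨M - (n + 5 + 1 + i), by omega⟩
      rw [B_big (by omega), if_neg (by omega : ¬ n + 5 + 1 + i = n + 5)]
      have hC := choose_pos' (n + 5) i
      have ht : (0 : ℚ) < (t : ℚ) + 1 := by positivity
      rcases Nat.eq_zero_or_pos i with hi | hi
      · subst hi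
        rw [if_pos (by omega)]
        obtain ⟨b1, b2⟩ := base_facts n
        have hz := e_zero n t
        have e0 : e (n + 5) (0 + t + 1) 0 = e (n + 5) (t + 1) 0 := by rw [Nat.zero_add]
        rw [e0]
        have ec : ((n + 5 + 0).choose (n + 5) : ℚ) = 1 := by
          rw [Nat.add_zero, Nat.choose_self]; simp
        rw [ec]
        have eh : h (n + 5) (n + 5 + 0) = h (n + 5) (n + 5) := by rw [Nat.add_zero]
        rw [eh]
        set X := h (n + 5) (n + 5) with hX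
        set Y := R (n + 5) 0 with hY
        set Z := D (n + 5) 0 - Kp (n + 5) 0 with hZ
        set E := e (n + 5) (t + 1) 0 with hE
        have eM : ((n + 5 + (0 + t + 1) : ℕ) : ℚ) = (n : ℚ) + 6 + t := by push_cast; ring
        have ek : ((n + 5 + 1 + 0 : ℕ) : ℚ) = (n : ℚ) + 6 := by push_cast; ring
        rw [eM, ek]
        have pM : (0 : ℚ) < (n : ℚ) + 6 + t := by positivity
        have key : 0 ≤ E / ((t : ℚ) + 1) + (((n : ℚ) + 6) / ((n : ℚ) + 6 + t)) * (X - Y) := by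
          have e1 : E / ((t : ℚ) + 1) + (((n : ℚ) + 6) / ((n : ℚ) + 6 + t)) * (X - Y)
              = (((n : ℚ) + 6 + t) * E + ((t : ℚ) + 1) * ((n : ℚ) + 6) * (X - Y))
                / (((t : ℚ) + 1) * ((n : ℚ) + 6 + t)) := by
            field_simp
          rw [e1]
          apply div_nonneg _ (by positivity)
          have e2 : ((n : ℚ) + 6 + t) * Z ≤ ((n : ℚ) + 6 + t) * E := mul_le_mul_of_nonneg_left hz pM.le
          have e3 : ((n : ℚ) + 6 + t) * Z + ((t : ℚ) + 1) * ((n : ℚ) + 6) * (X - Y)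
              = ((n : ℚ) + 6 + t) * (Z + (X - Y)) + ((n : ℚ) + 5) * (t : ℚ) * (X - Y) := by ring
          have e4 : 0 ≤ ((n : ℚ) + 6 + t) * (Z + (X - Y)) := mul_nonneg pM.le b2
          have e5 : 0 ≤ ((n : ℚ) + 5) * (t : ℚ) * (X - Y) :=
            mul_nonneg (by positivity) (by linarith)
          linarith
        have e6 : 1 * E / ((t : ℚ) + 1) + (((n : ℚ) + 6) / ((n : ℚ) + 6 + t)) * X
            - (((n : ℚ) + 6) * (Y / ((n : ℚ) + 6 + t)) - (((n : ℚ) + 6 + t) - ((n : ℚ) + 6)) * 0)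
            = E / ((t : ℚ) + 1) + (((n : ℚ) + 6) / ((n : ℚ) + 6 + t)) * (X - Y) := by ring
        linarith
      · rw [if_neg (by omega)]
        have hE : 0 ≤ e (n + 5) (i + t + 1) i := e_nonneg n i hi (t + 1)
        have hh : 0 ≤ h (n + 5) (n + 5 + i) := h_nonneg _ _ (by omega)
        have p1 : 0 ≤ ((n + 5 + i).choose (n + 5) : ℚ) * e (n + 5) (i + t + 1) i / ((t : ℚ) + 1) :=
          div_nonneg (mul_nonneg hC.le hE) ht.le
        have p2 : 0 ≤ (((n + 5 + 1 + i : ℕ) : ℚ) / ((n + 5 + (i + t + 1) : ℕ) : ℚ))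
            * h (n + 5) (n + 5 + i) := by positivity
        rw [mul_zero, mul_zero, sub_zero]
        linarith

lemma choose2 (i : ℕ) : ((i + 2).choose 2 : ℚ) = ((i : ℚ) + 1) * (i + 2) / 2 := by
  induction i with
  | zero => norm_num
  | succ i ih =>
    rw [show i + 1 + 2 = (i + 2) + 1 by ring, Nat.choose_succ_succ (i + 2) 1, Nat.choose_one_right]
    push_cast
    rw [ih]
    ring

lemma choose3 (i : ℕ) : ((i + 3).choose 3 : ℚ) = ((i : ℚ) + 1) * (i + 2) * (i + 3) / 6 := by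
  induction i with
  | zero => norm_num
  | succ i ih =>
    have h2 : ((i + 3).choose 2 : ℚ) = ((i : ℚ) + 2) * (i + 3) / 2 := by
      have := choose2 (i + 1)
      rw [show i + 1 + 2 = i + 3 by ring] at this
      rw [this]; push_cast; ring
    rw [show i + 1 + 3 = (i + 3) + 1 by ring, Nat.choose_succ_succ (i + 3) 2]
    push_cast
    rw [ih, h2]
    ring

lemma choose4 (i : ℕ) : ((4 + i).choose 4 : ℚ) = ((i : ℚ) + 1) * (i + 2) * (i + 3) * (i + 4) / 24 := by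
  induction i with
  | zero => norm_num
  | succ i ih =>
    have h2 : ((4 + i).choose 3 : ℚ) = ((i : ℚ) + 2) * (i + 3) * (i + 4) / 6 := by
      have := choose3 (i + 1)
      rw [show i + 1 + 3 = 4 + i by ring] at this
      rw [this]; push_cast; ring
    rw [show 4 + (i + 1) = (4 + i) + 1 by ring, Nat.choose_succ_succ (4 + i) 3]
    push_cast
    rw [ih, h2]
    ring

lemma R4 (m : ℕ) : R 4 m = (15 * ((m : ℚ) + 1) ^ 3 + 30 * ((m : ℚ) + 1) ^ 2 + 5 * ((m : ℚ) + 1) - 2)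
    / (240 * ((m : ℚ) + 2) * (m + 3) * (m + 4)) := by
  unfold R
  rw [a_n4, choose4]
  push_cast
  have h1 : ((m : ℚ) + 1) ≠ 0 := by positivity
  have h2 : ((m : ℚ) + 2) ≠ 0 := by positivity
  have h3 : ((m : ℚ) + 3) ≠ 0 := by positivity
  have h4 : ((m : ℚ) + 4) ≠ 0 := by positivity
  field_simp
  ring

lemma K4 (i : ℕ) : Kp 4 i = (15 * ((i : ℚ) + 2) ^ 3 + 30 * ((i : ℚ) + 2) ^ 2 + 5 * ((i : ℚ) + 2) - 2)
    / (240 * ((i : ℚ) + 1) * (i + 3) * (i + 4)) := by
  unfold Kp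
  rw [a_n4, choose4]
  push_cast
  have h1 : ((i : ℚ) + 1) ≠ 0 := by positivity
  have h2 : ((i : ℚ) + 2) ≠ 0 := by positivity
  have h3 : ((i : ℚ) + 3) ≠ 0 := by positivity
  have h4 : ((i : ℚ) + 4) ≠ 0 := by positivity
  field_simp
  ring

lemma h4 (i : ℕ) : h 4 (4 + i) = (15 * ((i : ℚ) + 4) ^ 2 - 55 * ((i : ℚ) + 4) + 42) / 1440 := by
  unfold h
  rw [if_pos (by omega)]
  have e1 : 4 + i + 2 = 4 + (i + 2) := by ring
  have e2 : 4 + i + 1 = 4 + (i + 1) := by ring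
  have e3 : 4 + i = 3 + (i + 1) := by ring
  have e4 : 3 + (i + 1) - 1 = 2 + (i + 1) := by omega
  rw [e1, e2, c_add, c_add, e3, show (4 : ℕ) - 1 = 3 from rfl, show (4 : ℕ) - 2 = 2 from rfl,
    c_add, e4, c_add, a_n4, a_n4, a_n3, a_n2]
  push_cast
  ring

lemma B4_big (i t : ℕ) :
    B 4 (4 + (i + t + 1)) (4 + 1 + i)
      = ((5 : ℚ) + i) * ((((i : ℚ) + 1) * (i + 2) / 2) / (120 * ((5 : ℚ) + i + t)))
        - (t : ℚ) * ((((i : ℚ) + 2) * (i + 3) / 2) / (120 * ((5 : ℚ) + i + t)))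
        + ((i : ℚ) + 1) * (888 + 674 * t + 124 * t ^ 2 + 2 * t ^ 3
          + i * (1262 + 686 * t + 85 * t ^ 2 + t ^ 3) + i ^ 2 * (676 + 243 * t + 16 * t ^ 2)
          + i ^ 3 * (160 + 29 * t) + 14 * i ^ 4)
          / (1440 * ((5 : ℚ) + i + t) * (4 + i + t) * (3 + i + t)) := by
  rw [B_big (by norm_num), h4]
  unfold e
  rw [R4, K4, R4, choose4]
  push_cast
  have p0 : ((t : ℚ) + 1) ≠ 0 := by positivity
  have p1 : ((i : ℚ) + 1) ≠ 0 := by positivity
  have p2 : ((i : ℚ) + 2) ≠ 0 := by positivity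
  have p3 : ((i : ℚ) + 3) ≠ 0 := by positivity
  have p4 : ((i : ℚ) + 4) ≠ 0 := by positivity
  have q5 : ((5 : ℚ) + i + t) ≠ 0 := by positivity
  have q4 : ((4 : ℚ) + i + t) ≠ 0 := by positivity
  have q3 : ((3 : ℚ) + i + t) ≠ 0 := by positivity
  have r2 : ((i : ℚ) + t + 1 + 2) = 3 + i + t := by ring
  have r3 : ((i : ℚ) + t + 1 + 3) = 4 + i + t := by ring
  have r4 : ((i : ℚ) + t + 1 + 4) = 5 + i + t := by ring
  have r5 : ((4 : ℚ) + (i + t + 1)) = 5 + i + t := by ring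
  rw [r2, r3, r4, r5]
  field_simp
  ring

lemma cert_four (M : ℕ) (hM : 4 ≤ M) : ∃ u : ℕ → ℚ, (∀ k, 0 ≤ u k) ∧
    ∀ k ≤ M, (k : ℚ) * u (k - 1) - ((M : ℚ) - k) * u k ≤ B 4 M k := by
  have hM0 : (0 : ℚ) < (M : ℚ) := by
    have : 0 < M := by omega
    exact_mod_cast this
  refine ⟨fun k => ((k - 2).choose 2 : ℚ) / (120 * (M : ℚ)), ?_, ?_⟩
  · intro k
    simp only
    positivity
  · intro k hk
    simp only
    rcases Nat.lt_trichotomy k 4 with hk1 | hk1 | hk1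
    · rw [B_small (by norm_num) hk1, Nat.choose_eq_zero_of_lt (by omega : k - 1 - 2 < 2),
        Nat.choose_eq_zero_of_lt (by omega : k - 2 < 2)]
      simp
    · subst hk1
      obtain ⟨m, rfl⟩ : ∃ m, M = 4 + m := ⟨M - 4, by omega⟩
      rw [B_diag (by norm_num), R_zero, a_n4]
      have e1 : ((4 - 1 - 2 : ℕ).choose 2 : ℚ) = 0 := by norm_num
      have e2 : ((4 - 2 : ℕ).choose 2 : ℚ) = 1 := by norm_num
      rw [e1, e2]
      apply le_of_eq
      push_cast
      field_simp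
      ring
    · obtain ⟨i, rfl⟩ : ∃ i, k = 4 + 1 + i := ⟨k - (4 + 1), by omega⟩
      obtain ⟨t, rfl⟩ : ∃ t, M = 4 + (i + t + 1) := ⟨M - (4 + 1 + i), by omega⟩
      rw [B4_big]
      have e1 : ((4 + 1 + i - 1 - 2).choose 2 : ℚ) = ((i : ℚ) + 1) * (i + 2) / 2 := by
        rw [show 4 + 1 + i - 1 - 2 = i + 2 by omega, choose2]
      have e2 : ((4 + 1 + i - 2).choose 2 : ℚ) = ((i : ℚ) + 2) * (i + 3) / 2 := by
        rw [show 4 + 1 + i - 2 = (i + 1) + 2 by omega, choose2]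
        push_cast; ring
      rw [e1, e2]
      have e3 : ((4 + (i + t + 1) : ℕ) : ℚ) = (5 : ℚ) + i + t := by push_cast; ring
      have e4 : ((4 + 1 + i : ℕ) : ℚ) = (5 : ℚ) + i := by push_cast; ring
      rw [e3, e4]
      have hp : 0 ≤ ((i : ℚ) + 1) * (888 + 674 * t + 124 * t ^ 2 + 2 * t ^ 3
          + i * (1262 + 686 * t + 85 * t ^ 2 + t ^ 3) + i ^ 2 * (676 + 243 * t + 16 * t ^ 2)
          + i ^ 3 * (160 + 29 * t) + 14 * i ^ 4)
          / (1440 * ((5 : ℚ) + i + t) * (4 + i + t) * (3 + i + t)) := by positivity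
      have e5 : ((5 : ℚ) + i + t) - (5 + i) = t := by ring
      rw [e5]
      linarith

/-- the certificate for all `n ≥ 4` -/
theorem cert (n M : ℕ) (hn : 4 ≤ n) (hM : n ≤ M) : ∃ u : ℕ → ℚ, (∀ k, 0 ≤ u k) ∧
    ∀ k ≤ M, (k : ℚ) * u (k - 1) - ((M : ℚ) - k) * u k ≤ B n M k := by
  rcases Nat.lt_or_ge n 5 with h5 | h5
  · obtain rfl : n = 4 := by omega
    exact cert_four M hM
  · obtain ⟨n', rfl⟩ : ∃ n', n = n' + 5 := ⟨n - 5, by omega⟩
    exact cert_five n' M hM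

end Pool.Agent.Helper87.KN
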