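import Pool.Agent.Helper87.KN.Coef

/-!
The inequalities `(j-s) a(n,j+1) ≥ (n+j-s) a(n,j)` for `s = 0, 1`.
-/

namespace Pool.Agent.Helper87.KN

/-- double induction step; `n` stands for `n'+1`, `j` for `j'+1`. -/
lemma Q_step (s : ℚ) (n j : ℕ) (hj : s < (j : ℚ)) (hn : s ≤ (n : ℚ))
    (h1 : ((j : ℚ) + 1 - s) * a n (j + 2) ≥ ((n : ℚ) + j + 1 - s) * a n (j + 1))
    (h2 : ((j : ℚ) - s) * a (n + 1) (j + 1) ≥ ((n : ℚ) + 1 + j - s) * a (n + 1) j) :
    ((j : ℚ) + 1 - s) * a (n + 1) (j + 2) ≥ ((n : ℚ) + 1 + j + 1 - s) * a (n + 1) (j + 1) := by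
  have r1 := a_rec n (j + 1)
  have r2 := a_rec n j
  push_cast at r1
  have hx := a_nonneg (n + 1) (j + 1)
  set x := a (n + 1) (j + 1) with hxdef
  set w := a (n + 1) j with hw
  set y := a n (j + 1) with hy
  set v := a n (j + 2) with hv
  set g := a (n + 1) (j + 2) with hg
  have r1' : ((n : ℚ) + j + 3) * g = ((j : ℚ) + 2) * (x + v) := by
    have : ((n : ℚ) + (j + 1) + 2) * g = ((j : ℚ) + 1 + 1) * (x + v) := r1
    linear_combination this
  have r2' : ((n : ℚ) + j + 2) * x = ((j : ℚ) + 1) * (w + y) := r2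
  -- positivity of the denominators
  have p1 : (0 : ℚ) < (j : ℚ) + 1 - s := by linarith
  have p2 : (0 : ℚ) < (n : ℚ) + 1 + j - s := by
    have : (0 : ℚ) ≤ (n : ℚ) := by positivity
    linarith
  have hn0 : (0 : ℚ) ≤ (n : ℚ) := by positivity
  have hj0 : (0 : ℚ) ≤ (j : ℚ) := by positivity
  -- goal multiplied by (n+j+3) (j+1)
  have p3 : (0 : ℚ) < ((n : ℚ) + j + 3) * ((j : ℚ) + 1) := by positivity
  -- (j+1-s) g (n+j+3) (j+1) = (j+1-s)(j+2)(j+1)(x+v)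
  -- (j+1-s) v >= (n+j+1-s) y ; (j+1) y = (n+j+2) x - (j+1) w ; (n+1+j-s) w <= (j-s) x
  have e1 : ((j : ℚ) + 1 - s) * v * ((j : ℚ) + 1) ≥
      ((n : ℚ) + j + 1 - s) * (((n : ℚ) + j + 2) * x - ((j : ℚ) + 1) * w) := by
    have : ((n : ℚ) + j + 2) * x - ((j : ℚ) + 1) * w = ((j : ℚ) + 1) * y := by
      rw [r2']; ring
    rw [this]
    nlinarith [h1]
  have e2 : ((n : ℚ) + j + 1 - s) * (((j : ℚ) + 1) * w) ≤ ((j : ℚ) + 1) * (((j : ℚ) - s) * x) := by
    nlinarith [h2]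
  have e3 : ((j : ℚ) + 1 - s) * v * ((j : ℚ) + 1) ≥
      ((n : ℚ) + j + 1 - s) * (((n : ℚ) + j + 2) * x) - ((j : ℚ) + 1) * (((j : ℚ) - s) * x) := by
    linarith
  have e4 : ((j : ℚ) + 1 - s) * g * (((n : ℚ) + j + 3) * ((j : ℚ) + 1)) ≥
      ((j : ℚ) + 2) * (((j : ℚ) + 1 - s) * ((j : ℚ) + 1) * x
        + (((n : ℚ) + j + 1 - s) * (((n : ℚ) + j + 2) * x)
          - ((j : ℚ) + 1) * (((j : ℚ) - s) * x))) := by
    have : ((j : ℚ) + 1 - s) * g * (((n : ℚ) + j + 3) * ((j : ℚ) + 1))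
        = ((j : ℚ) + 2) * (((j : ℚ) + 1 - s) * ((j : ℚ) + 1) * x
          + ((j : ℚ) + 1 - s) * v * ((j : ℚ) + 1)) := by
      linear_combination (((j : ℚ) + 1 - s) * ((j : ℚ) + 1)) * r1'
    rw [this]
    have : (0 : ℚ) ≤ (j : ℚ) + 2 := by positivity
    nlinarith [e3]
  have e5 : ((j : ℚ) + 2) * (((j : ℚ) + 1 - s) * ((j : ℚ) + 1) * x
        + (((n : ℚ) + j + 1 - s) * (((n : ℚ) + j + 2) * x)
          - ((j : ℚ) + 1) * (((j : ℚ) - s) * x)))
      - ((n : ℚ) + 1 + j + 1 - s) * x * (((n : ℚ) + j + 3) * ((j : ℚ) + 1))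
      = ((n : ℚ) + 1) * ((n : ℚ) - s) * x := by ring
  have e6 : 0 ≤ ((n : ℚ) + 1) * ((n : ℚ) - s) * x := by
    have : 0 ≤ (n : ℚ) - s := by linarith
    positivity
  have e7 : ((n : ℚ) + 1 + j + 1 - s) * x * (((n : ℚ) + j + 3) * ((j : ℚ) + 1))
      ≤ ((j : ℚ) + 1 - s) * g * (((n : ℚ) + j + 3) * ((j : ℚ) + 1)) := by linarith
  exact le_of_mul_le_mul_right e7 p3

lemma a_one (n : ℕ) : a n 1 = 1 / ((n + 1).factorial : ℚ) := by
  unfold a
  have : Nat.stirlingSecond (n + 1) 1 = 1 := Nat.stirlingSecond_one_right n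
  rw [this]
  simp

lemma a_two : ∀ n : ℕ, a n 2 = (2 ^ (n + 2) - 2) / ((n + 2).factorial : ℚ)
  | 0 => by rw [a_zero_left]; norm_num [Nat.factorial]
  | n + 1 => by
    have h := a_two n
    have r := a_rec n 1
    rw [a_one, show (1 : ℕ) + 1 = 2 from rfl, h] at r
    push_cast at r
    have h3 : ((n : ℚ) + 3) ≠ 0 := by positivity
    have e : ((n : ℚ) + 3) * a (n + 1) 2
        = ((n : ℚ) + 3) * ((2 ^ (n + 1 + 2) - 2) / ((n + 1 + 2).factorial : ℚ)) := by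
      have f1 : ((n + 1 + 2).factorial : ℚ) = ((n : ℚ) + 3) * ((n + 2).factorial : ℚ) := by
        rw [show n + 1 + 2 = (n + 2) + 1 by ring, Nat.factorial_succ]; push_cast; ring
      have f2 : ((n + 1 + 1).factorial : ℚ) = ((n + 2).factorial : ℚ) := by rfl
      rw [f1]
      rw [f2] at r
      have h4 := fact_ne (n + 2)
      have : ((n : ℚ) + 1 + 2) * a (n + 1) 2
        = (1 + 1) * (1 / ((n + 2).factorial : ℚ) + (2 ^ (n + 2) - 2) / ((n + 2).factorial : ℚ)) := by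
        linear_combination r
      have h5 : ((n : ℚ) + 3) * a (n + 1) 2
        = (1 + 1) * (1 / ((n + 2).factorial : ℚ) + (2 ^ (n + 2) - 2) / ((n + 2).factorial : ℚ)) := by
        linear_combination this
      rw [h5]
      field_simp
      ring
    exact mul_left_cancel₀ h3 e

lemma a_three : ∀ n : ℕ, a n 3 = (3 ^ (n + 3) - 3 * 2 ^ (n + 3) + 3) / ((n + 3).factorial : ℚ)
  | 0 => by rw [a_zero_left]; norm_num [Nat.factorial]
  | n + 1 => by
    have h := a_three n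
    have r := a_rec n 2
    rw [show (2 : ℕ) + 1 = 3 from rfl, h, a_two] at r
    push_cast at r
    have h3 : ((n : ℚ) + 4) ≠ 0 := by positivity
    have e : ((n : ℚ) + 4) * a (n + 1) 3
        = ((n : ℚ) + 4) * ((3 ^ (n + 1 + 3) - 3 * 2 ^ (n + 1 + 3) + 3) / ((n + 1 + 3).factorial : ℚ)) := by
      have f1 : ((n + 1 + 3).factorial : ℚ) = ((n : ℚ) + 4) * ((n + 3).factorial : ℚ) := by
        rw [show n + 1 + 3 = (n + 3) + 1 by ring, Nat.factorial_succ]; push_cast; ring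
      have f2 : ((n + 1 + 2).factorial : ℚ) = ((n + 3).factorial : ℚ) := by rfl
      rw [f1]
      rw [f2] at r
      have h4 := fact_ne (n + 3)
      have h5 : ((n : ℚ) + 4) * a (n + 1) 3
        = (2 + 1) * ((2 ^ (n + 1 + 2) - 2) / ((n + 3).factorial : ℚ)
          + (3 ^ (n + 3) - 3 * 2 ^ (n + 3) + 3) / ((n + 3).factorial : ℚ)) := by
        linear_combination r
      rw [h5]
      field_simp
      ring
    exact mul_left_cancel₀ h3 e

lemma a_n1 : ∀ j : ℕ, a 1 j = (j : ℚ) / 2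
  | 0 => by rw [show (1 : ℕ) = 0 + 1 from rfl, a_succ_zero]; simp
  | j + 1 => by
    have h := a_n1 j
    have r := a_rec 0 j
    rw [a_zero_left, show 0 + 1 = 1 from rfl, h] at r
    have h3 : ((j : ℚ) + 2) ≠ 0 := by positivity
    apply mul_left_cancel₀ h3
    push_cast at r ⊢
    linear_combination r

lemma a_n2 : ∀ j : ℕ, a 2 j = (j : ℚ) * (3 * j + 1) / 24
  | 0 => by rw [show (2 : ℕ) = 1 + 1 from rfl, a_succ_zero]; simp
  | j + 1 => by
    have h := a_n2 j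
    have r := a_rec 1 j
    rw [a_n1, show 1 + 1 = 2 from rfl, h] at r
    have h3 : ((j : ℚ) + 3) ≠ 0 := by positivity
    apply mul_left_cancel₀ h3
    push_cast at r ⊢
    linear_combination r

lemma a_n3 : ∀ j : ℕ, a 3 j = (j : ℚ) ^ 2 * (j + 1) / 48
  | 0 => by rw [show (3 : ℕ) = 2 + 1 from rfl, a_succ_zero]; simp
  | j + 1 => by
    have h := a_n3 j
    have r := a_rec 2 j
    rw [a_n2, show 2 + 1 = 3 from rfl, h] at r
    have h3 : ((j : ℚ) + 4) ≠ 0 := by positivity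
    apply mul_left_cancel₀ h3
    push_cast at r ⊢
    linear_combination r

lemma a_n4 : ∀ j : ℕ, a 4 j = (j : ℚ) * (15 * j ^ 3 + 30 * j ^ 2 + 5 * j - 2) / 5760
  | 0 => by rw [show (4 : ℕ) = 3 + 1 from rfl, a_succ_zero]; simp
  | j + 1 => by
    have h := a_n4 j
    have r := a_rec 3 j
    rw [a_n3, show 3 + 1 = 4 from rfl, h] at r
    have h3 : ((j : ℚ) + 5) ≠ 0 := by positivity
    apply mul_left_cancel₀ h3
    push_cast at r ⊢
    linear_combination r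

lemma a_n5 : ∀ j : ℕ, a 5 j = (j : ℚ) ^ 2 * (3 * j ^ 3 + 10 * j ^ 2 + 5 * j - 2) / 11520
  | 0 => by rw [show (5 : ℕ) = 4 + 1 from rfl, a_succ_zero]; simp
  | j + 1 => by
    have h := a_n5 j
    have r := a_rec 4 j
    rw [a_n4, show 4 + 1 = 5 from rfl, h] at r
    have h3 : ((j : ℚ) + 6) ≠ 0 := by positivity
    apply mul_left_cancel₀ h3
    push_cast at r ⊢
    linear_combination r

/-- `s = 0`: `j a(n,j+1) ≥ (n+j) a(n,j)` -/
lemma MR : ∀ (n j : ℕ), ((j : ℚ) + 1) * a n (j + 2) ≥ ((n : ℚ) + j + 1) * a n (j + 1)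
  | 0, j => by
    rw [a_zero_left, a_zero_left]; simp
  | n + 1, 0 => by
    have h : a (n + 1) (0 + 2) = a (n + 1) 2 := rfl
    have h' : a (n + 1) (0 + 1) = a (n + 1) 1 := rfl
    rw [h, h', a_two, a_one]
    have f : ((n + 1 + 2).factorial : ℚ) = ((n : ℚ) + 3) * ((n + 1 + 1).factorial : ℚ) := by
      rw [show n + 1 + 2 = (n + 1 + 1) + 1 by ring, Nat.factorial_succ (n + 1 + 1)]
      push_cast; ring
    rw [f]
    have h1 := fact_pos (n + 1 + 1)
    have h2 : (0 : ℚ) < (n : ℚ) + 3 := by positivity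
    have key : ∀ n : ℕ, ((n : ℚ) + 2) * (n + 3) ≤ 2 ^ (n + 1 + 2) - 2 := by
      intro n
      induction n with
      | zero => norm_num
      | succ m ih =>
        have e : (2 : ℚ) ^ (m + 1 + 1 + 2) = 2 * 2 ^ (m + 1 + 2) := by ring
        rw [e]
        push_cast
        have hm : (0 : ℚ) ≤ (m : ℚ) := by positivity
        nlinarith
    have hk := key n
    push_cast
    rw [ge_iff_le, zero_add, add_zero]
    rw [mul_one_div, one_mul, div_le_div_iff₀ h1 (by positivity)]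
    nlinarith
  | n + 1, j + 1 => by
    have h1 := MR n (j + 1)
    have h2 := MR (n + 1) j
    have h := Q_step 0 n (j + 1) (by positivity) (by positivity)
      (by
        push_cast at h1 ⊢
        linarith) (by
        push_cast at h2 ⊢
        linarith)
    push_cast at h ⊢
    linarith

/-- `n = 5`, `j ≥ 3`. -/
lemma Q5 (j : ℕ) : ((j : ℚ) + 2) * a 5 (j + 4) ≥ ((j : ℚ) + 7) * a 5 (j + 3) := by
  rw [a_n5, a_n5]
  push_cast
  have hj : (0 : ℚ) ≤ (j : ℚ) := by positivity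
  have : ((j : ℚ) + 2) * (((j : ℚ) + 4) ^ 2 * (3 * ((j : ℚ) + 4) ^ 3 + 10 * ((j : ℚ) + 4) ^ 2 + 5 * ((j : ℚ) + 4) - 2) / 11520)
      - ((j : ℚ) + 7) * (((j : ℚ) + 3) ^ 2 * (3 * ((j : ℚ) + 3) ^ 3 + 10 * ((j : ℚ) + 3) ^ 2 + 5 * ((j : ℚ) + 3) - 2) / 11520)
      = (5 * (j : ℚ) ^ 4 + 70 * (j : ℚ) ^ 3 + 331 * (j : ℚ) ^ 2 + 586 * (j : ℚ) + 248) / 11520 := by ring
  have h2 : 0 ≤ (5 * (j : ℚ) ^ 4 + 70 * (j : ℚ) ^ 3 + 331 * (j : ℚ) ^ 2 + 586 * (j : ℚ) + 248) / 11520 := by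
    positivity
  linarith

/-- `j = 2`, `n ≥ 6`. -/
lemma Qj2 (n : ℕ) : a (n + 6) 3 ≥ ((n : ℚ) + 7) * a (n + 6) 2 := by
  rw [a_three, a_two]
  have f : ((n + 6 + 3).factorial : ℚ) = ((n : ℚ) + 9) * ((n + 6 + 2).factorial : ℚ) := by
    rw [show n + 6 + 3 = (n + 6 + 2) + 1 by ring, Nat.factorial_succ (n + 6 + 2)]
    push_cast; ring
  rw [f]
  have h1 := fact_pos (n + 6 + 2)
  have key : ∀ n : ℕ, ((n : ℚ) + 7) * (n + 9) * (2 ^ (n + 6 + 2) - 2)
      ≤ 3 ^ (n + 6 + 3) - 3 * 2 ^ (n + 6 + 3) + 3 := by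
    have k1 : ∀ n : ℕ, ((n : ℚ) ^ 2 + 16 * n + 69) * 2 ^ (n + 8) ≤ 3 ^ (n + 9) := by
      intro n
      induction n with
      | zero => norm_num
      | succ m ih =>
        have e1 : (2 : ℚ) ^ (m + 1 + 8) = 2 * 2 ^ (m + 8) := by ring
        have e2 : (3 : ℚ) ^ (m + 1 + 9) = 3 * 3 ^ (m + 9) := by ring
        rw [e1, e2]
        have hm : (0 : ℚ) ≤ (m : ℚ) := by positivity
        have hp : (0 : ℚ) < 2 ^ (m + 8) := by positivity
        have h3 : 0 ≤ ((m : ℚ) ^ 2 + 12 * m + 35) * 2 ^ (m + 8) := by positivity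
        push_cast
        linarith
    intro n
    have h := k1 n
    have e1 : (2 : ℚ) ^ (n + 6 + 2) = 2 ^ (n + 8) := by ring
    have e2 : (2 : ℚ) ^ (n + 6 + 3) = 2 * 2 ^ (n + 8) := by ring
    have e3 : (3 : ℚ) ^ (n + 6 + 3) = 3 ^ (n + 9) := by ring
    rw [e1, e2, e3]
    have hn : (0 : ℚ) ≤ (n : ℚ) := by positivity
    nlinarith
  have hk := key n
  have h2 : (0 : ℚ) < (n : ℚ) + 9 := by positivity
  rw [ge_iff_le, ← mul_div_assoc, div_le_div_iff₀ h1 (by positivity)]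
  nlinarith

/-- `s = 1`, `n ≥ 5`, `j ≥ 3` or `n ≥ 6`, `j ≥ 2`:
`(j-1) a(n,j+1) ≥ (n+j-1) a(n,j)`. Here `j = i+2`. -/
lemma Qmain : ∀ (n i : ℕ), (n = 0 → 1 ≤ i) →
    ((i : ℚ) + 1) * a (n + 5) (i + 3) ≥ ((n : ℚ) + 5 + i + 1) * a (n + 5) (i + 2)
  | 0, 0, h => by simp at h
  | 0, i + 1, _ => by
    have h := Q5 i
    push_cast
    have e1 : i + 1 + 3 = i + 4 := by ring
    have e2 : i + 1 + 2 = i + 3 := by ring
    rw [e1, e2]
    linarith
  | n + 1, 0, _ => by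
    have h := Qj2 n
    have e : n + 1 + 5 = n + 6 := by ring
    rw [e]
    push_cast
    linarith
  | n + 1, i + 1, _ => by
    have h1 := Qmain n (i + 1) (by intro _; omega)
    have h2 := Qmain (n + 1) i (by intro h; omega)
    have h := Q_step 1 (n + 5) (i + 2) (by push_cast; linarith [(Nat.cast_nonneg i : (0 : ℚ) ≤ i)])
      (by push_cast; linarith [(Nat.cast_nonneg n : (0 : ℚ) ≤ n)])
      (by
        push_cast at h1 ⊢
        have e1 : i + 1 + 3 = i + 2 + 2 := by ring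
        have e2 : i + 1 + 2 = i + 2 + 1 := by ring
        rw [e1, e2] at h1
        linarith) (by
        push_cast at h2 ⊢
        have e1 : i + 3 = i + 2 + 1 := by ring
        have e2 : n + 1 + 5 = n + 5 + 1 := by ring
        rw [e1, e2] at h2
        linarith)
    push_cast at h ⊢
    have e1 : i + 1 + 3 = i + 2 + 2 := by ring
    have e2 : i + 1 + 2 = i + 2 + 1 := by ring
    have e3 : n + 1 + 5 = n + 5 + 1 := by ring
    rw [e1, e2, e3]
    linarith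

end Pool.Agent.Helper87.KN
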