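import Pool.Agent.Helper87.KN.Q

/-!
The numbers `c k n` (= expectation of `binom(⌊U_1+...+U_k⌋, n)`), their convolution,
the numbers `h n k` and the inequality for the last replacement step.
-/

namespace Pool.Agent.Helper87.KN

/-- `c k n = [x^n] ((e^x-1)/x)^(k-n)` for `n ≤ k`, and `0` for `k < n`. -/
def c (k n : ℕ) : ℚ := if n ≤ k then a n (k - n) else 0

lemma c_zero_zero : c 0 0 = 1 := by
  unfold c; simp [a_zero_left]

lemma c_of_lt {k n : ℕ} (h : k < n) : c k n = 0 := by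
  unfold c; rw [if_neg (by omega)]

lemma c_add (n j : ℕ) : c (n + j) n = a n j := by
  unfold c; rw [if_pos (by omega), Nat.add_sub_cancel_left]

lemma c_self (n : ℕ) (hn : 1 ≤ n) : c n n = 0 := by
  have h := c_add n 0
  rw [Nat.add_zero] at h
  rw [h]
  obtain ⟨m, rfl⟩ : ∃ m, n = m + 1 := ⟨n - 1, by omega⟩
  exact a_succ_zero m

lemma c_nonneg (k n : ℕ) : 0 ≤ c k n := by
  unfold c
  split_ifs
  · exact a_nonneg _ _
  · exact le_refl _

theorem c_stirling (n r : ℕ) : c (n + r) n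
    = ((r.factorial : ℚ) * (Nat.stirlingSecond (n + r) r : ℚ)) / ((n + r).factorial : ℚ) := by
  rw [c_add]; rfl

theorem conv (k n : ℕ) : c (k + 1) n = ∑ q ∈ Finset.range (n + 1),
    (if q ≤ k then c (k - q) (n - q) / ((q + 1).factorial : ℚ) else 0) := by
  by_cases hnk : n ≤ k
  · obtain ⟨j, rfl⟩ : ∃ j, k = n + j := ⟨k - n, by omega⟩
    have e : n + j + 1 = n + (j + 1) := by ring
    rw [e, c_add, a_conv]
    apply Finset.sum_congr rfl
    intro q hq
    have hq' : q ≤ n := by have := Finset.mem_range.mp hq; omega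
    rw [if_pos (by omega)]
    have e2 : n + j - q = (n - q) + j := by omega
    rw [e2, c_add]
  · have h1 : c (k + 1) n = 0 := by
      by_cases h : n = k + 1
      · rw [h]; exact c_self _ (by omega)
      · exact c_of_lt (by omega)
    rw [h1]
    symm
    apply Finset.sum_eq_zero
    intro q hq
    split_ifs with h
    · rw [c_of_lt (by omega)]; simp
    · rfl

/-- second order excess -/
def h (n k : ℕ) : ℚ :=
  c (k + 2) n - c (k + 1) n - c k (n - 1) / 2 - (if 1 ≤ k then c (k - 1) (n - 2) / 12 else 0)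

/-- the coefficients of `x^q/q!` in the polynomial `E binom(⌊x + U_1 + ... + U_{k+1}⌋, n)` on `[0,1]` -/
def gam (n k q : ℕ) : ℚ := if q ≤ k + 1 then c (k + 1 - q) (n - q) else 0

lemma gam_nonneg (n k q : ℕ) : 0 ≤ gam n k q := by
  unfold gam; split_ifs
  · exact c_nonneg _ _
  · exact le_refl _

lemma conv_gam (k n : ℕ) : c (k + 2) n = ∑ q ∈ Finset.range (n + 1),
    gam n k q / ((q + 1).factorial : ℚ) := by
  rw [show k + 2 = (k + 1) + 1 by ring, conv]
  apply Finset.sum_congr rfl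
  intro q _
  unfold gam
  split_ifs <;> simp

/-- the linear functional `∫φ - φ(0) - φ'(0)/2 - φ''(0)/12` on the monomial `x^q` -/
def L (q : ℕ) : ℚ :=
  if q = 0 then 0 else if q = 1 then 0 else if q = 2 then 1 / 6 else 1 / ((q : ℚ) + 1)

lemma L_nonneg (q : ℕ) : 0 ≤ L q := by
  unfold L; split_ifs <;> positivity

lemma h_eq_sum (n k : ℕ) (hn : 2 ≤ n) : h n k = ∑ q ∈ Finset.range (n + 1),
    gam n k q / (q.factorial : ℚ) * L q := by
  have hc := conv_gam k n
  unfold h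
  rw [hc]
  obtain ⟨m, rfl⟩ : ∃ m, n = m + 2 := ⟨n - 2, by omega⟩
  -- split off the first three terms of both sums
  have e1 : ∀ F : ℕ → ℚ, ∑ q ∈ Finset.range (m + 2 + 1), F q
      = F 0 + F 1 + F 2 + ∑ q ∈ Finset.range m, F (q + 3) := by
    intro F
    rw [Finset.sum_range_succ', Finset.sum_range_succ', Finset.sum_range_succ']
    ring
  rw [e1, e1]
  have e2 : ∑ q ∈ Finset.range m, gam (m + 2) k (q + 3) / ((q + 3).factorial : ℚ) * L (q + 3)
      = ∑ q ∈ Finset.range m, gam (m + 2) k (q + 3) / ((q + 3 + 1).factorial : ℚ) := by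
    apply Finset.sum_congr rfl
    intro q _
    have : L (q + 3) = 1 / ((q : ℚ) + 4) := by
      unfold L
      rw [if_neg (by omega), if_neg (by omega), if_neg (by omega)]
      push_cast
      ring
    rw [this, Nat.factorial_succ (q + 3)]
    have h1 := fact_ne (q + 3)
    have h2 : ((q : ℚ) + 4) ≠ 0 := by positivity
    push_cast
    have h3 : ((q : ℚ) + 3 + 1) ≠ 0 := by positivity
    field_simp
    ring
  rw [e2]
  have g0 : gam (m + 2) k 0 = c (k + 1) (m + 2) := by unfold gam; simp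
  have g1 : gam (m + 2) k 1 = c k (m + 2 - 1) := by unfold gam; simp
  have g2 : gam (m + 2) k 2 = if 1 ≤ k then c (k - 1) (m + 2 - 2) else 0 := by
    unfold gam
    by_cases hk : 1 ≤ k
    · rw [if_pos (by omega), if_pos hk]
      have : k + 1 - 2 = k - 1 := by omega
      rw [this]
    · rw [if_neg (by omega), if_neg hk]
  have l0 : L 0 = 0 := by unfold L; simp
  have l1 : L 1 = 0 := by unfold L; simp
  have l2 : L 2 = 1 / 6 := by unfold L; simp
  rw [l0, l1, l2, g0, g1, g2]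
  have f1 : ((0 + 1).factorial : ℚ) = 1 := by norm_num [Nat.factorial]
  have f2 : ((1 + 1).factorial : ℚ) = 2 := by norm_num [Nat.factorial]
  have f3 : ((2 + 1).factorial : ℚ) = 6 := by norm_num [Nat.factorial]
  rw [f1, f2, f3]
  split_ifs <;> ring

theorem h_nonneg (n k : ℕ) (hn : 2 ≤ n) : 0 ≤ h n k := by
  rw [h_eq_sum n k hn]
  apply Finset.sum_nonneg
  intro q _
  exact mul_nonneg (div_nonneg (gam_nonneg _ _ _) (fact_pos q).le) (L_nonneg q)

theorem h_zero (n k : ℕ) (hn : 2 ≤ n) (hk : k + 1 < n) : h n k = 0 := by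
  unfold h
  have h1 : c (k + 2) n = 0 := by
    by_cases hh : k + 2 = n
    · rw [hh]; exact c_self _ (by omega)
    · exact c_of_lt (by omega)
  rw [h1, c_of_lt (by omega : k + 1 < n), c_of_lt (by omega : k < n - 1)]
  by_cases hk1 : 1 ≤ k
  · rw [if_pos hk1, c_of_lt (by omega : k - 1 < n - 2)]; ring
  · rw [if_neg hk1]; ring

lemma pow_aux (A : ℕ) : ∀ m : ℕ, A ^ (m + 2) * (A ^ 2 + (m + 2) * A + 1) ≤ (A + 1) ^ (m + 2) * A ^ 2
  | 0 => by
    have : A ^ (0 + 2) * (A ^ 2 + (0 + 2) * A + 1) = (A + 1) ^ (0 + 2) * A ^ 2 := by ring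
    exact this.le
  | m + 1 => by
    have ih := pow_aux A m
    calc A ^ (m + 1 + 2) * (A ^ 2 + (m + 1 + 2) * A + 1)
        ≤ (A + 1) * (A ^ (m + 2) * (A ^ 2 + (m + 2) * A + 1)) := by
          have e : (A + 1) * (A ^ (m + 2) * (A ^ 2 + (m + 2) * A + 1))
            = A ^ (m + 1 + 2) * (A ^ 2 + (m + 1 + 2) * A + 1)
              + A ^ (m + 2) * ((m + 2) * A + 1) := by ring
          rw [e]; exact Nat.le_add_right _ _
      _ ≤ (A + 1) * ((A + 1) ^ (m + 2) * A ^ 2) := Nat.mul_le_mul_left _ ih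
      _ = (A + 1) ^ (m + 1 + 2) * A ^ 2 := by ring

/-- `(q+1) Σ_{t<A} t^q ≤ A^(q-1) (A-1)^2` for `q = m+3`; here `A = B+1`. -/
lemma sum_pow_le (m : ℕ) : ∀ B : ℕ,
    (m + 4) * ∑ t ∈ Finset.range (B + 1), t ^ (m + 3) ≤ (B + 1) ^ (m + 2) * B ^ 2
  | 0 => by simp
  | B + 1 => by
    have ih := sum_pow_le m B
    rw [Finset.sum_range_succ, mul_add]
    have h := pow_aux (B + 1) m
    calc (m + 4) * ∑ t ∈ Finset.range (B + 1), t ^ (m + 3) + (m + 4) * (B + 1) ^ (m + 3)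
        ≤ (B + 1) ^ (m + 2) * B ^ 2 + (m + 4) * (B + 1) ^ (m + 3) := Nat.add_le_add_right ih _
      _ = (B + 1) ^ (m + 2) * ((B + 1) ^ 2 + (m + 2) * (B + 1) + 1) := by ring
      _ ≤ (B + 1 + 1) ^ (m + 2) * (B + 1) ^ 2 := h

lemma sum_id (B : ℕ) : ∑ t ∈ Finset.range (B + 1), (t : ℚ) = (B : ℚ) * (B + 1) / 2 := by
  induction B with
  | zero => simp
  | succ B ih => rw [Finset.sum_range_succ, ih]; push_cast; ring

lemma sum_sq (B : ℕ) : ∑ t ∈ Finset.range (B + 1), (t : ℚ) ^ 2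
    = (B : ℚ) * (B + 1) * (2 * B + 1) / 6 := by
  induction B with
  | zero => simp
  | succ B ih => rw [Finset.sum_range_succ, ih]; push_cast; ring

/-- monomial inequality -/
lemma mono_le (q A : ℕ) (hA : 1 ≤ A) (hq : 2 ≤ q) :
    (1 / (A : ℚ)) * ∑ t ∈ Finset.range A, ((t : ℚ) / A) ^ q
      ≤ (1 - 1 / (A : ℚ)) / ((q : ℚ) + 1) - (1 / (A : ℚ)) * (1 - 1 / (A : ℚ)) * L q := by
  obtain ⟨B, rfl⟩ : ∃ B, A = B + 1 := ⟨A - 1, by omega⟩
  have hB : (0 : ℚ) < ((B + 1 : ℕ) : ℚ) := by positivity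
  have e0 : ∑ t ∈ Finset.range (B + 1), ((t : ℚ) / ((B + 1 : ℕ) : ℚ)) ^ q
      = (∑ t ∈ Finset.range (B + 1), (t : ℚ) ^ q) / ((B + 1 : ℕ) : ℚ) ^ q := by
    rw [Finset.sum_div]
    apply Finset.sum_congr rfl
    intro t _
    rw [div_pow]
  rw [e0]
  by_cases h2 : q = 2
  · subst h2
    rw [sum_sq]
    have l2 : L 2 = 1 / 6 := by unfold L; simp
    rw [l2]
    apply le_of_eq
    push_cast
    have : ((B : ℚ) + 1) ≠ 0 := by positivity
    field_simp
    ring
  · obtain ⟨m, rfl⟩ : ∃ m, q = m + 3 := ⟨q - 3, by omega⟩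
    have l3 : L (m + 3) = 1 / ((m : ℚ) + 4) := by
      unfold L
      rw [if_neg (by omega), if_neg (by omega), if_neg (by omega)]
      push_cast; ring
    rw [l3]
    have hs := sum_pow_le m B
    have hs' : ((m : ℚ) + 4) * ∑ t ∈ Finset.range (B + 1), (t : ℚ) ^ (m + 3)
        ≤ ((B : ℚ) + 1) ^ (m + 2) * (B : ℚ) ^ 2 := by
      exact_mod_cast hs
    have hb : (0 : ℚ) < (B : ℚ) + 1 := by positivity
    have hm : (0 : ℚ) < (m : ℚ) + 4 := by positivity
    set S := ∑ t ∈ Finset.range (B + 1), (t : ℚ) ^ (m + 3) with hS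
    have e1 : (1 - 1 / ((B + 1 : ℕ) : ℚ)) / (((m + 3 : ℕ) : ℚ) + 1)
        - (1 / ((B + 1 : ℕ) : ℚ)) * (1 - 1 / ((B + 1 : ℕ) : ℚ)) * (1 / ((m : ℚ) + 4))
        = (((B : ℚ) + 1) ^ (m + 2) * (B : ℚ) ^ 2) / (((m : ℚ) + 4) * ((B : ℚ) + 1) ^ (m + 4)) := by
      push_cast
      have h1 : ((B : ℚ) + 1) ≠ 0 := hb.ne'
      have h2 : ((m : ℚ) + 4) ≠ 0 := hm.ne'
      have h3 : ((m : ℚ) + 3 + 1) ≠ 0 := by positivity
      have h4 : ((B : ℚ) + 1) ^ (m + 4) = ((B : ℚ) + 1) ^ (m + 2) * ((B : ℚ) + 1) ^ 2 := by ring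
      rw [h4]
      field_simp
      ring
    have e2 : 1 / ((B + 1 : ℕ) : ℚ) * (S / ((B + 1 : ℕ) : ℚ) ^ (m + 3))
        = (((m : ℚ) + 4) * S) / (((m : ℚ) + 4) * ((B : ℚ) + 1) ^ (m + 4)) := by
      push_cast
      have h4 : ((B : ℚ) + 1) ^ (m + 4) = ((B : ℚ) + 1) ^ (m + 3) * ((B : ℚ) + 1) := by ring
      rw [h4]
      field_simp
    rw [e1, e2]
    exact div_le_div_of_nonneg_right hs' (by positivity)

/-- the last replacement step -/
theorem last (n k A : ℕ) (hn : 2 ≤ n) (hA : 1 ≤ A) :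
    (1 / (A : ℚ)) * ∑ t ∈ Finset.range A, ∑ q ∈ Finset.range (n + 1),
      (if q ≤ k + 1 then c (k + 1 - q) (n - q) else 0) * ((t : ℚ) / A) ^ q / (q.factorial : ℚ)
    ≤ (1 / (A : ℚ)) * c (k + 1) n + (1 - 1 / (A : ℚ)) * c (k + 2) n
      - (1 / (A : ℚ)) * (1 - 1 / (A : ℚ)) * h n k := by
  have hA0 : (A : ℚ) ≠ 0 := by
    have : A ≠ 0 := by omega
    exact_mod_cast this
  rw [h_eq_sum n k hn, conv_gam k n]
  rw [Finset.sum_comm, Finset.mul_sum, Finset.mul_sum, Finset.mul_sum]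
  have g0 : c (k + 1) n = gam n k 0 := by unfold gam; simp
  rw [g0]
  -- write the right side as one sum
  have e1 : (1 / (A : ℚ)) * gam n k 0
      = ∑ q ∈ Finset.range (n + 1), (if q = 0 then (1 / (A : ℚ)) * gam n k q else 0) := by
    rw [Finset.sum_ite_eq' (Finset.range (n + 1)) 0]
    simp
  rw [e1, ← Finset.sum_add_distrib, ← Finset.sum_sub_distrib]
  apply Finset.sum_le_sum
  intro q _
  have e2 : ∑ t ∈ Finset.range A, (if q ≤ k + 1 then c (k + 1 - q) (n - q) else 0)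
        * ((t : ℚ) / A) ^ q / (q.factorial : ℚ)
      = gam n k q / (q.factorial : ℚ) * ∑ t ∈ Finset.range A, ((t : ℚ) / A) ^ q := by
    rw [Finset.mul_sum]
    apply Finset.sum_congr rfl
    intro t _
    unfold gam
    ring
  rw [e2]
  have hg := gam_nonneg n k q
  have hf := fact_pos q
  rcases Nat.lt_or_ge q 2 with hq | hq
  · obtain rfl | rfl : q = 0 ∨ q = 1 := by omega
    · have l0 : L 0 = 0 := by unfold L; simp
      rw [if_pos rfl, l0]
      simp only [pow_zero, Finset.sum_const, Finset.card_range, nsmul_eq_mul, mul_one,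
        Nat.factorial_zero, Nat.cast_one, div_one, zero_add, Nat.factorial_one, mul_zero, sub_zero]
      apply le_of_eq
      field_simp
      ring
    · have l1 : L 1 = 0 := by unfold L; simp
      rw [if_neg (by omega), l1]
      obtain ⟨B, rfl⟩ : ∃ B, A = B + 1 := ⟨A - 1, by omega⟩
      have e3 : ∑ t ∈ Finset.range (B + 1), ((t : ℚ) / ((B + 1 : ℕ) : ℚ)) ^ 1
          = ((B : ℚ) * (B + 1) / 2) / ((B + 1 : ℕ) : ℚ) := by
        rw [← sum_id, Finset.sum_div]
        apply Finset.sum_congr rfl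
        intro t _
        rw [pow_one]
      rw [e3]
      have f2 : ((1 + 1).factorial : ℚ) = 2 := by norm_num [Nat.factorial]
      rw [f2, Nat.factorial_one]
      apply le_of_eq
      push_cast
      have : ((B : ℚ) + 1) ≠ 0 := by positivity
      field_simp
      ring
  · rw [if_neg (by omega)]
    have hm := mono_le q A hA hq
    have f2 : ((q + 1).factorial : ℚ) = ((q : ℚ) + 1) * (q.factorial : ℚ) := by
      rw [Nat.factorial_succ]; push_cast; ring
    rw [f2]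
    have hgf : 0 ≤ gam n k q / (q.factorial : ℚ) := div_nonneg hg hf.le
    have h2 := mul_le_mul_of_nonneg_left hm hgf
    have e4 : 1 / (A : ℚ) * (gam n k q / (q.factorial : ℚ) * ∑ t ∈ Finset.range A, ((t : ℚ) / A) ^ q)
        = gam n k q / (q.factorial : ℚ) * (1 / (A : ℚ) * ∑ t ∈ Finset.range A, ((t : ℚ) / A) ^ q) := by
      ring
    have hq1 : ((q : ℚ) + 1) ≠ 0 := by positivity
    have hf0 := fact_ne q
    have e5 : 0 + (1 - 1 / (A : ℚ)) * (gam n k q / (((q : ℚ) + 1) * (q.factorial : ℚ)))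
          - 1 / (A : ℚ) * (1 - 1 / (A : ℚ)) * (gam n k q / (q.factorial : ℚ) * L q)
        = gam n k q / (q.factorial : ℚ) * ((1 - 1 / (A : ℚ)) / ((q : ℚ) + 1)
          - (1 / (A : ℚ)) * (1 - 1 / (A : ℚ)) * L q) := by
      field_simp
      ring
    rw [e4, e5]
    exact h2

end Pool.Agent.Helper87.KN
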