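import Pool.Agent.Helper87.KN.Last

/-!
The function `B n M k` and the certificate `u ≥ 0` with
`B n M k ≥ k * u (k-1) - (M-k) * u k`.
-/

namespace Pool.Agent.Helper87.KN

/-- `R n i = ρ_{n+i}`. -/
def R (n i : ℕ) : ℚ := a n (i + 1) / ((n + i).choose n : ℚ)

/-- `Kp n i = κ_{n+1+i}`. -/
def Kp (n i : ℕ) : ℚ := a n (i + 2) / ((n + i).choose n : ℚ)

/-- `D n m = (M+2) ρ_{M+1} - (M+1) ρ_M` for `M = n+m`. -/
def D (n m : ℕ) : ℚ := ((n : ℚ) + m + 2) * R n (m + 1) - ((n : ℚ) + m + 1) * R n m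

/-- `e n m i = (M+1) ρ_M - (M-k+1) κ_k - k ρ_{k-1}` for `M = n+m`, `k = n+1+i`. -/
def e (n m i : ℕ) : ℚ :=
  ((n : ℚ) + m + 1) * R n m - ((m : ℚ) - i) * Kp n i - ((n : ℚ) + 1 + i) * R n i

lemma choose_pos' (n i : ℕ) : (0 : ℚ) < ((n + i).choose n : ℚ) := by
  exact_mod_cast Nat.choose_pos (Nat.le_add_right n i)

lemma choose_step (n i : ℕ) :
    ((n + (i + 1)).choose n : ℚ) * ((i : ℚ) + 1) = ((n + i).choose n : ℚ) * ((n : ℚ) + i + 1) := by
  have h := Nat.choose_mul_succ_eq (n + i) n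
  have e1 : n + i + 1 - n = i + 1 := by omega
  rw [e1] at h
  have e2 : n + (i + 1) = n + i + 1 := by ring
  rw [e2]
  exact_mod_cast h.symm

lemma R_rel (n i : ℕ) : ((n : ℚ) + i + 1) * R n (i + 1) = ((i : ℚ) + 1) * Kp n i := by
  unfold R Kp
  have h1 := choose_pos' n i
  have h2 := choose_pos' n (i + 1)
  have h3 := choose_step n i
  have e1 : i + 1 + 1 = i + 2 := by ring
  rw [e1]
  rw [mul_div_assoc', mul_div_assoc', div_eq_div_iff h2.ne' h1.ne']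
  linear_combination (-(a n (i + 2))) * h3

lemma R_pos (n i : ℕ) : 0 < R n i := div_pos (a_pos n i) (choose_pos' n i)

lemma Kp_pos (n i : ℕ) : 0 < Kp n i := div_pos (a_pos n (i + 1)) (choose_pos' n i)

lemma R_mono (n i : ℕ) : R n i ≤ R n (i + 1) := by
  have h := MR n i
  have hr := R_rel n i
  have h1 := choose_pos' n i
  have e1 : ((n : ℚ) + i + 1) * R n i ≤ ((i : ℚ) + 1) * Kp n i := by
    unfold R Kp
    rw [mul_div_assoc', mul_div_assoc']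
    exact div_le_div_of_nonneg_right h h1.le
  rw [← hr] at e1
  have h2 : (0 : ℚ) < (n : ℚ) + i + 1 := by positivity
  exact le_of_mul_le_mul_left e1 h2

lemma R_mono' (n : ℕ) {i j : ℕ} (hij : i ≤ j) : R n i ≤ R n j :=
  monotone_nat_of_le_succ (f := R n) (fun i => R_mono n i) hij

/-- monotonicity of `κ` -/
lemma Kp_mono (n i : ℕ) (h0 : n = 0 → 1 ≤ i) : Kp (n + 5) i ≤ Kp (n + 5) (i + 1) := by
  have h := Qmain n i h0
  unfold Kp
  have h1 := choose_pos' (n + 5) i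
  have h2 := choose_pos' (n + 5) (i + 1)
  have h3 := choose_step (n + 5) i
  have e1 : i + 1 + 2 = i + 3 := by ring
  rw [e1, div_le_div_iff₀ h1 h2]
  have h4 : (0 : ℚ) < (i : ℚ) + 1 := by positivity
  apply le_of_mul_le_mul_right _ h4
  push_cast at h3
  calc a (n + 5) (i + 2) * ((n + 5 + (i + 1)).choose (n + 5) : ℚ) * ((i : ℚ) + 1)
      = ((n + 5 + i).choose (n + 5) : ℚ) * (((n : ℚ) + 5 + i + 1) * a (n + 5) (i + 2)) := by
        linear_combination (a (n + 5) (i + 2)) * h3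
    _ ≤ ((n + 5 + i).choose (n + 5) : ℚ) * (((i : ℚ) + 1) * a (n + 5) (i + 3)) :=
        mul_le_mul_of_nonneg_left h h1.le
    _ = a (n + 5) (i + 3) * ((n + 5 + i).choose (n + 5) : ℚ) * ((i : ℚ) + 1) := by ring

lemma D_ge (n m : ℕ) (h : Kp n m ≤ Kp n (m + 1)) : Kp n (m + 1) ≤ D n (m + 1) := by
  unfold D
  have r1 := R_rel n (m + 1)
  have r0 := R_rel n m
  have hk := Kp_pos n (m + 1)
  have p1 : (0 : ℚ) < ((n : ℚ) + m + 2) * ((n : ℚ) + m + 1) := by positivity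
  apply le_of_mul_le_mul_right _ p1
  push_cast at r1 ⊢
  have e1 : (((n : ℚ) + (m + 1) + 2) * R n (m + 1 + 1) - ((n : ℚ) + (m + 1) + 1) * R n (m + 1))
        * (((n : ℚ) + m + 2) * ((n : ℚ) + m + 1))
      = ((n : ℚ) + m + 3) * ((n : ℚ) + m + 1) * (((m : ℚ) + 2) * Kp n (m + 1))
        - ((n : ℚ) + m + 2) ^ 2 * (((m : ℚ) + 1) * Kp n m) := by
    linear_combination (((n : ℚ) + m + 3) * ((n : ℚ) + m + 1)) * r1
      - (((n : ℚ) + m + 2) ^ 2) * r0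
  rw [e1]
  have e2 : ((n : ℚ) + m + 2) ^ 2 * (((m : ℚ) + 1) * Kp n m)
      ≤ ((n : ℚ) + m + 2) ^ 2 * (((m : ℚ) + 1) * Kp n (m + 1)) := by
    have : (0 : ℚ) ≤ ((n : ℚ) + m + 2) ^ 2 * ((m : ℚ) + 1) := by positivity
    nlinarith [mul_le_mul_of_nonneg_left h this]
  have e3 : ((n : ℚ) + m + 3) * ((n : ℚ) + m + 1) * (((m : ℚ) + 2) * Kp n (m + 1))
        - ((n : ℚ) + m + 2) ^ 2 * (((m : ℚ) + 1) * Kp n (m + 1))
        - Kp n (m + 1) * (((n : ℚ) + m + 2) * ((n : ℚ) + m + 1)) = (n : ℚ) * Kp n (m + 1) := by ring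
  have e4 : 0 ≤ (n : ℚ) * Kp n (m + 1) := by positivity
  linarith

lemma ch5 (i : ℕ) : ((5 + i).choose 5 : ℚ) = ((5 + i).choose 5 : ℕ) := rfl

lemma num5 : Kp 5 0 = 1 / 40 ∧ Kp 5 1 = 23 / 960 ∧ Kp 5 2 = 37 / 1512 ∧ Kp 5 3 = 45 / 1792 ∧
    R 5 0 = 1 / 720 ∧ R 5 1 = 1 / 240 ∧ R 5 2 = 23 / 3360 ∧ R 5 3 = 37 / 4032 := by
  have c0 : ((5 + 0).choose 5 : ℕ) = 1 := by decide
  have c1 : ((5 + 1).choose 5 : ℕ) = 6 := by decide
  have c2 : ((5 + 2).choose 5 : ℕ) = 21 := by decide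
  have c3 : ((5 + 3).choose 5 : ℕ) = 56 := by decide
  unfold Kp R
  simp only [a_n5, c0, c1, c2, c3]
  norm_num

lemma DK (n : ℕ) : ∀ m i : ℕ, 1 ≤ m → i ≤ m → Kp (n + 5) i ≤ D (n + 5) m := by
  rcases Nat.eq_zero_or_pos n with h0 | h0
  · subst h0
    obtain ⟨k0, k1, k2, k3, r0, r1, r2, r3⟩ := num5
    have m1 : ∀ i, 1 ≤ i → Kp 5 i ≤ Kp 5 (i + 1) := fun i hi => Kp_mono 0 i (fun _ => hi)
    have m2 : ∀ i j, 1 ≤ i → i ≤ j → Kp 5 i ≤ Kp 5 j := by
      intro i j hi hij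
      induction j, hij using Nat.le_induction with
      | base => exact le_refl _
      | succ j hij ih => exact ih.trans (m1 j (by omega))
    have d1 : D 5 1 = 8 * (23 / 3360) - 7 * (1 / 240) := by
      unfold D
      rw [show (1 : ℕ) + 1 = 2 from rfl, r2, r1]; norm_num
    have d2 : D 5 2 = 9 * (37 / 4032) - 8 * (23 / 3360) := by
      unfold D
      rw [show (2 : ℕ) + 1 = 3 from rfl, r3, r2]; norm_num
    have dd : ∀ m, 2 ≤ m → Kp 5 m ≤ D 5 m := by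
      intro m hm
      obtain ⟨m', rfl⟩ : ∃ m', m = m' + 1 := ⟨m - 1, by omega⟩
      exact D_ge 5 m' (m1 m' (by omega))
    intro m i hm hi
    rw [Nat.zero_add]
    rcases Nat.lt_or_ge m 2 with h2 | h2
    · obtain rfl : m = 1 := by omega
      obtain rfl | rfl : i = 0 ∨ i = 1 := by omega
      · rw [k0, d1]; norm_num
      · rw [k1, d1]; norm_num
    · rcases Nat.eq_zero_or_pos i with hi0 | hi0
      · subst hi0
        rcases Nat.lt_or_ge m 3 with h3 | h3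
        · obtain rfl : m = 2 := by omega
          rw [k0, d2]; norm_num
        · have h4 := m2 3 m (by omega) h3
          have h5 := dd m h2
          rw [k3] at h4
          rw [k0]
          have : (1 : ℚ) / 40 ≤ 45 / 1792 := by norm_num
          linarith
      · exact (m2 i m hi0 hi).trans (dd m h2)
  · have m1 : ∀ i, Kp (n + 5) i ≤ Kp (n + 5) (i + 1) := fun i => Kp_mono n i (fun h => by omega)
    intro m i hm hi
    obtain ⟨m', rfl⟩ : ∃ m', m = m' + 1 := ⟨m - 1, by omega⟩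
    exact (monotone_nat_of_le_succ (f := Kp (n + 5)) m1 hi).trans (D_ge (n + 5) m' (m1 m'))

lemma e_self (n i : ℕ) : e n i i = 0 := by
  unfold e; ring

lemma e_succ (n m i : ℕ) : e n (m + 1) i = e n m i + D n m - Kp n i := by
  unfold e D; push_cast; ring

lemma e_nonneg (n i : ℕ) (hi : 1 ≤ i) : ∀ t, 0 ≤ e (n + 5) (i + t) i
  | 0 => by
    have h0 : e (n + 5) (i + 0) i = 0 := e_self (n + 5) i
    exact h0.ge
  | t + 1 => by
    have ih := e_nonneg n i hi t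
    have h := DK n (i + t) i (by omega) (by omega)
    have e1 : i + (t + 1) = (i + t) + 1 := by ring
    rw [e1, e_succ]
    linarith

lemma e_zero (n : ℕ) : ∀ t, D (n + 5) 0 - Kp (n + 5) 0 ≤ e (n + 5) (t + 1) 0
  | 0 => by rw [e_succ, e_self]; linarith
  | t + 1 => by
    have ih := e_zero n t
    have h := DK n (t + 1) 0 (by omega) (by omega)
    rw [e_succ]
    linarith

lemma h_diag (n : ℕ) : h (n + 2) (n + 2)
    = a (n + 2) 2 - a (n + 2) 1 - a (n + 1) 1 / 2 - a n 1 / 12 := by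
  unfold h
  rw [if_pos (by omega)]
  have e1 : n + 2 - 1 = n + 1 := by omega
  have e2 : n + 2 - 2 = n := by omega
  have e3 : n + 2 = (n + 1) + 1 := by ring
  rw [e1, e2, c_add, c_add]
  rw [show c (n + 2) (n + 1) = a (n + 1) 1 from c_add (n + 1) 1,
    show c (n + 1) n = a n 1 from c_add n 1]

lemma two_pow_bound1 (n : ℕ) : ((n : ℚ) + 6) * (((n : ℚ) + 5) ^ 2 + 19 * ((n : ℚ) + 5) + 42)
    ≤ 12 * (2 ^ (n + 7) - 2) := by
  induction n with
  | zero => norm_num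
  | succ m ih =>
    have e1 : (2 : ℚ) ^ (m + 1 + 7) = 2 * 2 ^ (m + 7) := by ring
    rw [e1]
    have hm : (0 : ℚ) ≤ (m : ℚ) := by positivity
    push_cast
    have h3 : 0 ≤ (m : ℚ) ^ 3 := by positivity
    have h2 : 0 ≤ (m : ℚ) ^ 2 := by positivity
    nlinarith

lemma two_pow_bound2 (n : ℕ) : ((n : ℚ) + 7) * (((n : ℚ) + 5) ^ 2 + 7 * ((n : ℚ) + 5) + 30)
    ≤ 12 * (2 ^ (n + 7) - 2) := by
  induction n with
  | zero => norm_num
  | succ m ih =>
    have e1 : (2 : ℚ) ^ (m + 1 + 7) = 2 * 2 ^ (m + 7) := by ring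
    rw [e1]
    have hm : (0 : ℚ) ≤ (m : ℚ) := by positivity
    push_cast
    have h3 : 0 ≤ (m : ℚ) ^ 3 := by positivity
    have h2 : 0 ≤ (m : ℚ) ^ 2 := by positivity
    nlinarith

lemma base_facts (n : ℕ) : R (n + 5) 0 ≤ h (n + 5) (n + 5) ∧
    0 ≤ D (n + 5) 0 - Kp (n + 5) 0 + (h (n + 5) (n + 5) - R (n + 5) 0) := by
  have hd : h (n + 5) (n + 5) = a (n + 5) 2 - a (n + 5) 1 - a (n + 4) 1 / 2 - a (n + 3) 1 / 12 :=
    h_diag (n + 3)
  have hR0 : R (n + 5) 0 = a (n + 5) 1 := by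
    unfold R; rw [Nat.add_zero, Nat.choose_self]; simp
  have hK0 : Kp (n + 5) 0 = a (n + 5) 2 := by
    unfold Kp; rw [Nat.add_zero, Nat.choose_self]; simp
  have hR1 : ((n : ℚ) + 6) * R (n + 5) 1 = a (n + 5) 2 := by
    have := R_rel (n + 5) 0
    rw [hK0] at this
    push_cast at this
    linear_combination this
  have f4 : ((n + 3 + 1).factorial : ℚ) = ((n + 4).factorial : ℚ) := rfl
  have f5 : ((n + 4 + 1).factorial : ℚ) = ((n : ℚ) + 5) * ((n + 4).factorial : ℚ) := by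
    rw [Nat.factorial_succ (n + 4)]; push_cast; ring
  have f6 : ((n + 5 + 1).factorial : ℚ) = ((n : ℚ) + 6) * ((n : ℚ) + 5) * ((n + 4).factorial : ℚ) := by
    rw [Nat.factorial_succ (n + 5), Nat.factorial_succ (n + 4)]; push_cast; ring
  have f7 : ((n + 5 + 2).factorial : ℚ)
      = ((n : ℚ) + 7) * ((n : ℚ) + 6) * ((n : ℚ) + 5) * ((n + 4).factorial : ℚ) := by
    rw [show n + 5 + 2 = n + 6 + 1 by ring, Nat.factorial_succ (n + 6), Nat.factorial_succ (n + 5),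
      Nat.factorial_succ (n + 4)]
    push_cast; ring
  have hf := fact_pos (n + 4)
  set f := ((n + 4).factorial : ℚ) with hfdef
  have a2 : a (n + 5) 2 = (2 ^ (n + 7) - 2) / (((n : ℚ) + 7) * ((n : ℚ) + 6) * ((n : ℚ) + 5) * f) := by
    rw [a_two, f7]
  have a1 : a (n + 5) 1 = 1 / (((n : ℚ) + 6) * ((n : ℚ) + 5) * f) := by rw [a_one, f6]
  have a1' : a (n + 4) 1 = 1 / (((n : ℚ) + 5) * f) := by rw [a_one, f5]
  have a1'' : a (n + 3) 1 = 1 / f := by rw [a_one, f4]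
  have b1 := two_pow_bound1 n
  have b2 := two_pow_bound2 n
  have p5 : (0 : ℚ) < (n : ℚ) + 5 := by positivity
  have p6 : (0 : ℚ) < (n : ℚ) + 6 := by positivity
  have p7 : (0 : ℚ) < (n : ℚ) + 7 := by positivity
  set W := (2 : ℚ) ^ (n + 7) - 2 with hW
  constructor
  · rw [hd, hR0, a2, a1, a1', a1'']
    have : W / (((n : ℚ) + 7) * ((n : ℚ) + 6) * ((n : ℚ) + 5) * f)
        - 1 / (((n : ℚ) + 6) * ((n : ℚ) + 5) * f) - 1 / (((n : ℚ) + 5) * f) / 2 - 1 / f / 12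
        - 1 / (((n : ℚ) + 6) * ((n : ℚ) + 5) * f)
        = (12 * W - ((n : ℚ) + 7) * (((n : ℚ) + 5) ^ 2 + 7 * ((n : ℚ) + 5) + 30))
          / (12 * (((n : ℚ) + 7) * ((n : ℚ) + 6) * ((n : ℚ) + 5) * f)) := by
      field_simp
      ring
    have h2 : 0 ≤ (12 * W - ((n : ℚ) + 7) * (((n : ℚ) + 5) ^ 2 + 7 * ((n : ℚ) + 5) + 30))
          / (12 * (((n : ℚ) + 7) * ((n : ℚ) + 6) * ((n : ℚ) + 5) * f)) := by
      apply div_nonneg
      · linarith
      · positivity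
    linarith
  · have hD : D (n + 5) 0 = ((n : ℚ) + 7) * R (n + 5) 1 - ((n : ℚ) + 6) * R (n + 5) 0 := by
      unfold D; push_cast; ring
    have hR1' : R (n + 5) 1 = a (n + 5) 2 / ((n : ℚ) + 6) := by
      rw [eq_div_iff p6.ne', ← hR1]; ring
    rw [hD, hK0, hR1', hd, hR0, a2, a1, a1', a1'']
    have : ((n : ℚ) + 7) * (W / (((n : ℚ) + 7) * ((n : ℚ) + 6) * ((n : ℚ) + 5) * f) / ((n : ℚ) + 6))
        - ((n : ℚ) + 6) * (1 / (((n : ℚ) + 6) * ((n : ℚ) + 5) * f))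
        - W / (((n : ℚ) + 7) * ((n : ℚ) + 6) * ((n : ℚ) + 5) * f)
        + (W / (((n : ℚ) + 7) * ((n : ℚ) + 6) * ((n : ℚ) + 5) * f)
        - 1 / (((n : ℚ) + 6) * ((n : ℚ) + 5) * f) - 1 / (((n : ℚ) + 5) * f) / 2 - 1 / f / 12
        - 1 / (((n : ℚ) + 6) * ((n : ℚ) + 5) * f))
        = (12 * W - ((n : ℚ) + 6) * (((n : ℚ) + 5) ^ 2 + 19 * ((n : ℚ) + 5) + 42))
          / (12 * (((n : ℚ) + 6) ^ 2 * ((n : ℚ) + 5) * f)) := by
      field_simp
      ring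
    rw [this]
    apply div_nonneg
    · linarith
    · positivity

end Pool.Agent.Helper87.KN
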