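import Mathlib

/-!
Coefficients of powers of `(e^x - 1)/x`.

`a n j` is the coefficient of `x^n` in `((e^x-1)/x)^j`, written with Stirling numbers
of the second kind: `a n j = j! * S(n+j, j) / (n+j)!`.
-/

namespace Pool.Agent.Helper87.KN

/-- `a n j` is the coefficient of `x^n` in `((e^x-1)/x)^j`. -/
def a (n j : ℕ) : ℚ :=
  ((j.factorial : ℚ) * (Nat.stirlingSecond (n + j) j : ℚ)) / ((n + j).factorial : ℚ)

lemma fact_ne (n : ℕ) : ((n.factorial : ℕ) : ℚ) ≠ 0 := by
  exact_mod_cast Nat.factorial_ne_zero n

lemma fact_pos (n : ℕ) : (0 : ℚ) < ((n.factorial : ℕ) : ℚ) := by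
  exact_mod_cast Nat.factorial_pos n

lemma a_zero_left (j : ℕ) : a 0 j = 1 := by
  unfold a
  rw [Nat.zero_add, Nat.stirlingSecond_self]
  have := fact_ne j
  field_simp
  norm_num

lemma a_zero_zero : a 0 0 = 1 := a_zero_left 0

lemma a_succ_zero (n : ℕ) : a (n + 1) 0 = 0 := by
  unfold a
  rw [Nat.add_zero, Nat.stirlingSecond_succ_zero]
  simp

/-- the basic recurrence -/
lemma a_rec (n j : ℕ) :
    ((n : ℚ) + j + 2) * a (n + 1) (j + 1) = ((j : ℚ) + 1) * (a (n + 1) j + a n (j + 1)) := by
  unfold a
  have e1 : n + 1 + (j + 1) = (n + j + 1) + 1 := by ring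
  have e2 : n + 1 + j = n + j + 1 := by ring
  have e3 : n + (j + 1) = n + j + 1 := by ring
  rw [e1, e2, e3, Nat.stirlingSecond_succ_succ, Nat.factorial_succ (n + j + 1),
    Nat.factorial_succ j]
  have h1 := fact_ne (n + j + 1)
  have h2 : ((n : ℚ) + j + 2) ≠ 0 := by positivity
  push_cast
  have h3 : ((n : ℚ) + j + 1 + 1) ≠ 0 := by positivity
  field_simp
  ring

lemma stirling_pos : ∀ (n j : ℕ), 0 < Nat.stirlingSecond (n + (j + 1)) (j + 1)
  | 0, j => by rw [Nat.zero_add, Nat.stirlingSecond_self]; exact Nat.one_pos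
  | n + 1, j => by
    have h := stirling_pos n j
    have e : n + 1 + (j + 1) = (n + (j + 1)) + 1 := by ring
    rw [e, Nat.stirlingSecond_succ_succ]
    positivity

lemma a_pos (n j : ℕ) : 0 < a n (j + 1) := by
  unfold a
  have h1 := fact_pos (n + (j + 1))
  have h2 := fact_pos (j + 1)
  have h3 : (0 : ℚ) < (Nat.stirlingSecond (n + (j + 1)) (j + 1) : ℚ) := by
    exact_mod_cast stirling_pos n j
  positivity

lemma a_nonneg (n j : ℕ) : 0 ≤ a n j := by
  unfold a
  positivity

/-- convolution: `((e^x-1)/x)^(j+1) = ((e^x-1)/x)^j * ((e^x-1)/x)` -/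
lemma a_conv : ∀ (j n : ℕ),
    a n (j + 1) = ∑ i ∈ Finset.range (n + 1), a (n - i) j / ((i + 1).factorial : ℚ)
  | 0, n => by
    rw [Finset.sum_range_succ]
    have h0 : ∑ i ∈ Finset.range n, a (n - i) 0 / ((i + 1).factorial : ℚ) = 0 := by
      apply Finset.sum_eq_zero
      intro i hi
      have hi' := Finset.mem_range.mp hi
      obtain ⟨d, hd⟩ : ∃ d, n - i = d + 1 := ⟨n - i - 1, by omega⟩
      rw [hd, a_succ_zero]
      simp
    rw [h0, Nat.sub_self, a_zero_zero]
    unfold a
    have : Nat.stirlingSecond (n + (0 + 1)) (0 + 1) = 1 := by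
      simpa using Nat.stirlingSecond_one_right n
    rw [this]
    simp
  | j + 1, n => by
    have IH := a_conv j
    -- b n = sum
    set b : ℕ → ℚ := fun n => ∑ i ∈ Finset.range (n + 1), a (n - i) (j + 1) / ((i + 1).factorial : ℚ)
      with hb
    -- recurrence for b
    have hb0 : b 0 = 1 := by
      simp [hb, a_zero_left]
    have key : ∀ m : ℕ, ((m : ℚ) + j + 3) * b (m + 1) = ((j : ℚ) + 2) * (a (m + 1) (j + 1) + b m) := by
      intro m
      have e1 : ((m : ℚ) + j + 3) * b (m + 1)
          = ∑ i ∈ Finset.range (m + 2),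
            ((((m + 1 - i : ℕ) : ℚ) + (j + 1)) * a (m + 1 - i) (j + 1) / ((i + 1).factorial : ℚ)
              + a (m + 1 - i) (j + 1) / (i.factorial : ℚ)) := by
        rw [hb]
        simp only []
        rw [Finset.mul_sum]
        apply Finset.sum_congr rfl
        intro i hi
        have hi' : i ≤ m + 1 := by have := Finset.mem_range.mp hi; omega
        rw [Nat.cast_sub hi', Nat.factorial_succ]
        have h1 := fact_ne i
        have h2 : ((i : ℚ) + 1) ≠ 0 := by positivity
        push_cast
        field_simp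
        ring
      rw [e1, Finset.sum_add_distrib]
      -- first sum
      have e2 : ∑ i ∈ Finset.range (m + 2),
            (((m + 1 - i : ℕ) : ℚ) + (j + 1)) * a (m + 1 - i) (j + 1) / ((i + 1).factorial : ℚ)
          = ((j : ℚ) + 1) * (a (m + 1) (j + 1) + b m) := by
        have e3 : ∀ i ∈ Finset.range (m + 1),
            (((m + 1 - i : ℕ) : ℚ) + (j + 1)) * a (m + 1 - i) (j + 1) / ((i + 1).factorial : ℚ)
            = ((j : ℚ) + 1) * (a (m + 1 - i) j / ((i + 1).factorial : ℚ)
              + a (m - i) (j + 1) / ((i + 1).factorial : ℚ)) := by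
          intro i hi
          have hi' := Finset.mem_range.mp hi
          obtain ⟨d, hd⟩ : ∃ d, m - i = d := ⟨m - i, rfl⟩
          have hd2 : m + 1 - i = d + 1 := by omega
          rw [hd2, hd]
          have hr := a_rec d j
          have h1 := fact_ne (i + 1)
          push_cast
          have : ((d : ℚ) + 1 + (j + 1)) * a (d + 1) (j + 1)
              = ((j : ℚ) + 1) * (a (d + 1) j + a d (j + 1)) := by
            rw [← hr]; ring
          rw [this]
          ring
        rw [Finset.sum_range_succ, Finset.sum_congr rfl e3, ← Finset.mul_sum,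
          Finset.sum_add_distrib]
        have e4 : a (m + 1) (j + 1)
            = (∑ i ∈ Finset.range (m + 1), a (m + 1 - i) j / ((i + 1).factorial : ℚ))
              + a 0 j / ((m + 1 + 1).factorial : ℚ) := by
          rw [IH (m + 1), Finset.sum_range_succ, Nat.sub_self]
        have e5 : b m = ∑ i ∈ Finset.range (m + 1), a (m - i) (j + 1) / ((i + 1).factorial : ℚ) := rfl
        rw [e5, Nat.sub_self, a_zero_left]
        rw [a_zero_left] at e4
        have e6 : (∑ i ∈ Finset.range (m + 1), a (m + 1 - i) j / ((i + 1).factorial : ℚ))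
            = a (m + 1) (j + 1) - 1 / ((m + 1 + 1).factorial : ℚ) := by
          rw [e4]; ring
        rw [e6]
        push_cast
        ring
      have e7 : ∑ i ∈ Finset.range (m + 2), a (m + 1 - i) (j + 1) / (i.factorial : ℚ)
          = a (m + 1) (j + 1) + b m := by
        rw [Finset.sum_range_succ']
        have : ∀ i ∈ Finset.range (m + 1), a (m + 1 - (i + 1)) (j + 1) / ((i + 1).factorial : ℚ)
            = a (m - i) (j + 1) / ((i + 1).factorial : ℚ) := by
          intro i hi
          have : m + 1 - (i + 1) = m - i := by omega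
          rw [this]
        rw [Finset.sum_congr rfl this]
        simp [hb]
        ring
      rw [e2, e7]
      ring
    -- compare with a
    have main : ∀ n, a n (j + 1 + 1) = b n := by
      intro n
      induction n with
      | zero => rw [hb0, a_zero_left]
      | succ m ih =>
        have h1 := key m
        have h2 := a_rec m (j + 1)
        have h3 : ((m : ℚ) + j + 3) ≠ 0 := by positivity
        have h4 : ((m : ℚ) + j + 3) * a (m + 1) (j + 1 + 1) = ((m : ℚ) + j + 3) * b (m + 1) := by
          rw [h1, ← ih]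
          push_cast at h2
          linear_combination h2
        exact mul_left_cancel₀ h3 h4
    exact main n

end Pool.Agent.Helper87.KN
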