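import Pool.Agent.Helper87.KN.Cert

/-!
The averaged inequality `FINAL` for `n ≥ 4`.
-/

namespace Pool.Agent.Helper87.KN

variable {ι : Type*} [DecidableEq ι]

/-- the Bernoulli weight of the subset `K` of `S` -/
def w (p : ι → ℚ) (S K : Finset ι) : ℚ := (∏ i ∈ K, p i) * ∏ i ∈ S \ K, (1 - p i)

/-- the expectation of `f (number of successes)` -/
def E (p : ι → ℚ) (S : Finset ι) (f : ℕ → ℚ) : ℚ := ∑ K ∈ S.powerset, w p S K * f K.card

lemma w_not_mem (p : ι → ℚ) {S K : Finset ι} {i : ι} (hi : i ∈ S) (hK : K ⊆ S.erase i) :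
    w p S K = (1 - p i) * w p (S.erase i) K := by
  have hiK : i ∉ K := fun h => Finset.notMem_erase i S (hK h)
  have e1 : S \ K = insert i ((S.erase i) \ K) := by
    ext x
    simp only [Finset.mem_sdiff, Finset.mem_insert, Finset.mem_erase]
    constructor
    · rintro ⟨h1, h2⟩
      by_cases hx : x = i
      · exact Or.inl hx
      · exact Or.inr ⟨⟨hx, h1⟩, h2⟩
    · rintro (h | ⟨⟨_, h1⟩, h2⟩)
      · rw [h]; exact ⟨hi, hiK⟩
      · exact ⟨h1, h2⟩
  have e2 : i ∉ (S.erase i) \ K := by simp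
  unfold w
  rw [e1, Finset.prod_insert e2]
  ring

lemma w_insert (p : ι → ℚ) {S K : Finset ι} {i : ι} (hK : K ⊆ S.erase i) :
    w p S (insert i K) = p i * w p (S.erase i) K := by
  have hiK : i ∉ K := fun h => Finset.notMem_erase i S (hK h)
  have e1 : S \ (insert i K) = (S.erase i) \ K := by
    ext x
    simp only [Finset.mem_sdiff, Finset.mem_insert, Finset.mem_erase, not_or]
    tauto
  unfold w
  rw [e1, Finset.prod_insert hiK]
  ring

lemma sum_powerset_split {S : Finset ι} {i : ι} (hi : i ∈ S) (f : Finset ι → ℚ) :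
    ∑ K ∈ S.powerset, f K
      = ∑ K ∈ (S.erase i).powerset, f K + ∑ K ∈ (S.erase i).powerset, f (insert i K) := by
  conv_lhs => rw [← Finset.insert_erase hi]
  exact Finset.sum_powerset_insert (Finset.notMem_erase i S) f

lemma w_nonneg (p : ι → ℚ) {S K : Finset ι} (h0 : ∀ i ∈ S, 0 ≤ p i) (h1 : ∀ i ∈ S, p i ≤ 1)
    (hK : K ⊆ S) : 0 ≤ w p S K := by
  unfold w
  apply mul_nonneg
  · exact Finset.prod_nonneg (fun i hi => h0 i (hK hi))
  · apply Finset.prod_nonneg
    intro i hi
    have := h1 i (Finset.mem_sdiff.mp hi).1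
    linarith

lemma E_nonneg (p : ι → ℚ) {S : Finset ι} (h0 : ∀ i ∈ S, 0 ≤ p i) (h1 : ∀ i ∈ S, p i ≤ 1)
    (f : ℕ → ℚ) (hf : ∀ k ≤ S.card, 0 ≤ f k) : 0 ≤ E p S f := by
  unfold E
  apply Finset.sum_nonneg
  intro K hK
  have hK' := Finset.mem_powerset.mp hK
  exact mul_nonneg (w_nonneg p h0 h1 hK') (hf _ (Finset.card_le_card hK'))

lemma E_mono (p : ι → ℚ) {S : Finset ι} (h0 : ∀ i ∈ S, 0 ≤ p i) (h1 : ∀ i ∈ S, p i ≤ 1)
    (f g : ℕ → ℚ) (hf : ∀ k ≤ S.card, f k ≤ g k) : E p S f ≤ E p S g := by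
  unfold E
  apply Finset.sum_le_sum
  intro K hK
  have hK' := Finset.mem_powerset.mp hK
  exact mul_le_mul_of_nonneg_left (hf _ (Finset.card_le_card hK')) (w_nonneg p h0 h1 hK')

/-- `Σ_i (1-p_i) E_i u = E ((|S|-k) u(k))` -/
lemma sum_one_sub (p : ι → ℚ) (S : Finset ι) (u : ℕ → ℚ) :
    ∑ i ∈ S, (1 - p i) * E p (S.erase i) u = E p S (fun k => ((S.card : ℚ) - k) * u k) := by
  have e1 : ∀ i ∈ S, (1 - p i) * E p (S.erase i) u
      = ∑ K ∈ S.powerset, (if i ∈ K then 0 else w p S K * u K.card) := by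
    intro i hi
    rw [sum_powerset_split hi]
    have z : ∑ K ∈ (S.erase i).powerset,
        (if i ∈ insert i K then 0 else w p S (insert i K) * u (insert i K).card) = 0 := by
      apply Finset.sum_eq_zero
      intro K _
      rw [if_pos (Finset.mem_insert_self i K)]
    rw [z, add_zero]
    unfold E
    rw [Finset.mul_sum]
    apply Finset.sum_congr rfl
    intro K hK
    have hK' := Finset.mem_powerset.mp hK
    have hiK : i ∉ K := fun h => Finset.notMem_erase i S (hK' h)
    rw [if_neg hiK, w_not_mem p hi hK']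
    ring
  rw [Finset.sum_congr rfl e1, Finset.sum_comm]
  unfold E
  apply Finset.sum_congr rfl
  intro K hK
  have hK' := Finset.mem_powerset.mp hK
  have e2 : ∑ i ∈ S, (if i ∈ K then (0 : ℚ) else w p S K * u K.card)
      = ∑ i ∈ S \ K, w p S K * u K.card := by
    rw [Finset.sdiff_eq_filter, Finset.sum_filter]
    apply Finset.sum_congr rfl
    intro i _
    by_cases h : i ∈ K
    · simp [h]
    · simp [h]
  rw [e2, Finset.sum_const, Finset.card_sdiff_of_subset hK', nsmul_eq_mul,
    Nat.cast_sub (Finset.card_le_card hK')]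
  ring

/-- `Σ_i p_i E_i u = E (k u(k-1))` -/
lemma sum_p (p : ι → ℚ) (S : Finset ι) (u : ℕ → ℚ) :
    ∑ i ∈ S, p i * E p (S.erase i) u = E p S (fun k => (k : ℚ) * u (k - 1)) := by
  have e1 : ∀ i ∈ S, p i * E p (S.erase i) u
      = ∑ K ∈ S.powerset, (if i ∈ K then w p S K * u (K.card - 1) else 0) := by
    intro i hi
    rw [sum_powerset_split hi]
    have z : ∑ K ∈ (S.erase i).powerset,
        (if i ∈ K then w p S K * u (K.card - 1) else 0) = 0 := by
      apply Finset.sum_eq_zero
      intro K hK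
      have hK' := Finset.mem_powerset.mp hK
      have hiK : i ∉ K := fun h => Finset.notMem_erase i S (hK' h)
      rw [if_neg hiK]
    rw [z, zero_add]
    unfold E
    rw [Finset.mul_sum]
    apply Finset.sum_congr rfl
    intro K hK
    have hK' := Finset.mem_powerset.mp hK
    have hiK : i ∉ K := fun h => Finset.notMem_erase i S (hK' h)
    rw [if_pos (Finset.mem_insert_self i K), w_insert p hK', Finset.card_insert_of_notMem hiK,
      Nat.add_sub_cancel]
    ring
  rw [Finset.sum_congr rfl e1, Finset.sum_comm]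
  unfold E
  apply Finset.sum_congr rfl
  intro K hK
  have hK' := Finset.mem_powerset.mp hK
  have e2 : ∑ i ∈ S, (if i ∈ K then w p S K * u (K.card - 1) else 0)
      = ∑ i ∈ K, w p S K * u (K.card - 1) := by
    rw [← Finset.sum_filter, Finset.filter_mem_eq_inter, Finset.inter_eq_right.mpr hK']
  rw [e2, Finset.sum_const, nsmul_eq_mul]
  ring

/-- the averaged inequality -/
theorem final (n : ℕ) (hn : 4 ≤ n) (S : Finset ι) (hS : n ≤ S.card) (p : ι → ℚ)
    (hp : ∀ i ∈ S, 1 / 2 ≤ p i) (hp1 : ∀ i ∈ S, p i ≤ 1) (z : ℚ) (hz0 : 0 ≤ z)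
    (hz : ∀ i ∈ S, z ≤ 1 - p i) :
    z * (rho n S.card * ∑ K ∈ S.powerset, w p S K * ((K.card - 1).choose (n - 1) : ℚ))
      ≤ ∑ K ∈ S.powerset, w p S K * (rho n S.card * (K.card.choose n : ℚ) - c (K.card + 1) n)
        + (1 / (S.card : ℚ)) * ∑ i ∈ S, (1 - p i) * p i *
          ∑ K ∈ (S.erase i).powerset, w p (S.erase i) K * h n K.card := by
  set M := S.card with hM
  have hM0 : (0 : ℚ) < (M : ℚ) := by
    have : 0 < M := by omega
    exact_mod_cast this
  have p0 : ∀ i ∈ S, 0 ≤ p i := fun i hi => le_trans (by norm_num) (hp i hi)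
  have p0' : ∀ i ∈ S, ∀ j ∈ S.erase i, 0 ≤ p j := fun i _ j hj => p0 j (Finset.mem_of_mem_erase hj)
  have p1' : ∀ i ∈ S, ∀ j ∈ S.erase i, p j ≤ 1 := fun i _ j hj => hp1 j (Finset.mem_of_mem_erase hj)
  have hcard : ∀ i ∈ S, (S.erase i).card = M - 1 := fun i hi => Finset.card_erase_of_mem hi
  -- first term on the right
  have r1 : ∑ K ∈ S.powerset, w p S K * (rho n M * (K.card.choose n : ℚ) - c (K.card + 1) n)
      = ∑ i ∈ S, (1 - p i) * E p (S.erase i) (F n M) := by
    rw [sum_one_sub]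
    unfold E
    apply Finset.sum_congr rfl
    intro K hK
    have hK' := Finset.card_le_card (Finset.mem_powerset.mp hK)
    have := mul_F (n := n) (M := M) (k := K.card) (by omega) hS
    show w p S K * (rho n M * (K.card.choose n : ℚ) - c (K.card + 1) n)
      = w p S K * (((M : ℚ) - (K.card : ℚ)) * F n M K.card)
    rw [this]
  have r2 : ∑ i ∈ S, (1 - p i) * p i *
          ∑ K ∈ (S.erase i).powerset, w p (S.erase i) K * h n K.card
      = ∑ i ∈ S, (1 - p i) * (p i * E p (S.erase i) (h n)) := by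
    apply Finset.sum_congr rfl
    intro i _
    unfold E
    ring
  rw [r1, r2]
  have q1 : z * ∑ i ∈ S, E p (S.erase i) (F n M) ≤ ∑ i ∈ S, (1 - p i) * E p (S.erase i) (F n M) := by
    rw [Finset.mul_sum]
    apply Finset.sum_le_sum
    intro i hi
    apply mul_le_mul_of_nonneg_right (hz i hi)
    apply E_nonneg p (p0' i hi) (p1' i hi)
    intro k hk
    rw [hcard i hi] at hk
    exact F_nonneg (by omega)
  have q2 : z * ∑ i ∈ S, p i * E p (S.erase i) (h n)
      ≤ ∑ i ∈ S, (1 - p i) * (p i * E p (S.erase i) (h n)) := by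
    rw [Finset.mul_sum]
    apply Finset.sum_le_sum
    intro i hi
    apply mul_le_mul_of_nonneg_right (hz i hi)
    apply mul_nonneg (p0 i hi)
    apply E_nonneg p (p0' i hi) (p1' i hi)
    intro k _
    exact h_nonneg n k (by omega)
  -- the main inequality
  have key : rho n M * ∑ K ∈ S.powerset, w p S K * ((K.card - 1).choose (n - 1) : ℚ)
      ≤ ∑ i ∈ S, E p (S.erase i) (F n M)
        + (1 / (M : ℚ)) * ∑ i ∈ S, p i * E p (S.erase i) (h n) := by
    obtain ⟨u, hu, hB⟩ := cert n M hn hS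
    have s1 : ∑ i ∈ S, E p (S.erase i) (F n M)
        = E p S (fun k => (k : ℚ) * F n M (k - 1)) + E p S (fun k => ((M : ℚ) - k) * F n M k) := by
      rw [← sum_p, ← sum_one_sub, ← Finset.sum_add_distrib]
      apply Finset.sum_congr rfl
      intro i _
      ring
    have s2 : E p S (B n M) = E p S (fun k => (k : ℚ) * F n M (k - 1))
        + E p S (fun k => ((M : ℚ) - k) * F n M k)
        + (1 / (M : ℚ)) * E p S (fun k => (k : ℚ) * h n (k - 1))
        - rho n M * ∑ K ∈ S.powerset, w p S K * ((K.card - 1).choose (n - 1) : ℚ) := by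
      unfold E
      rw [Finset.mul_sum, Finset.mul_sum, ← Finset.sum_add_distrib, ← Finset.sum_add_distrib,
        ← Finset.sum_sub_distrib]
      apply Finset.sum_congr rfl
      intro K _
      unfold B
      ring
    have s3 : 0 ≤ E p S (fun k => (k : ℚ) * u (k - 1) - ((M : ℚ) - k) * u k) := by
      have t1 : E p S (fun k => (k : ℚ) * u (k - 1) - ((M : ℚ) - k) * u k)
          = ∑ i ∈ S, (p i - (1 - p i)) * E p (S.erase i) u := by
        have : E p S (fun k => (k : ℚ) * u (k - 1) - ((M : ℚ) - k) * u k)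
            = E p S (fun k => (k : ℚ) * u (k - 1)) - E p S (fun k => ((M : ℚ) - k) * u k) := by
          unfold E
          rw [← Finset.sum_sub_distrib]
          apply Finset.sum_congr rfl
          intro K _
          ring
        rw [this, ← sum_p, ← sum_one_sub, ← Finset.sum_sub_distrib]
        apply Finset.sum_congr rfl
        intro i _
        ring
      rw [t1]
      apply Finset.sum_nonneg
      intro i hi
      apply mul_nonneg
      · have := hp i hi; linarith
      · exact E_nonneg p (p0' i hi) (p1' i hi) u (fun k _ => hu k)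
    have s4 : E p S (fun k => (k : ℚ) * u (k - 1) - ((M : ℚ) - k) * u k) ≤ E p S (B n M) :=
      E_mono p p0 hp1 _ _ (fun k hk => hB k hk)
    rw [s2] at s4
    rw [s1, sum_p]
    linarith
  have key2 := mul_le_mul_of_nonneg_left key hz0
  have hinv : 0 ≤ 1 / (M : ℚ) := by positivity
  have q3 := mul_le_mul_of_nonneg_left q2 hinv
  have e1 : z * (∑ i ∈ S, E p (S.erase i) (F n M)
        + (1 / (M : ℚ)) * ∑ i ∈ S, p i * E p (S.erase i) (h n))
      = z * ∑ i ∈ S, E p (S.erase i) (F n M)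
        + (1 / (M : ℚ)) * (z * ∑ i ∈ S, p i * E p (S.erase i) (h n)) := by ring
  linarith

end Pool.Agent.Helper87.KN
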